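import Pool.Agent.Lib.MP_0b0414_ag.Twist

/-!
# Twisted coordinates of a set of rational points and their standard monomials
-/

set_option linter.unusedSectionVars false

open MvPolynomial Submodule Module

namespace B04

variable {F : Type*} [Field F] [Fintype F] {m : ℕ} {ι : Type*} [Fintype ι]

/-- the field of rational functions -/
abbrev KK (F : Type*) [Field F] (m : ℕ) := FractionRing (MvPolynomial (Fin (m + 1)) F)

/-- the generic coefficients -/
noncomputable def om (s : Fin (m + 1)) : KK F m :=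
  algebraMap (MvPolynomial (Fin (m + 1)) F) (KK F m) (X s)

/-- the linear form `ℓ_j = ∑ ω_s^(q^(m-j)) x_s` as a function on the points -/
noncomputable def el (v : ι → Fin (m + 1) → F) (j : ℕ) : ι → KK F m :=
  fun i => tw (om : Fin (m + 1) → KK F m) (Fintype.card F ^ (m - j)) (v i)

/-- coordinate functions -/
noncomputable def xx (v : ι → Fin (m + 1) → F) (s : Fin (m + 1)) : ι → KK F m :=
  fun i => algebraMap F (KK F m) (v i s)

/-- the linear functions -/
noncomputable def C1 (v : ι → Fin (m + 1) → F) : Submodule (KK F m) (ι → KK F m) :=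
  span (KK F m) (Set.range (xx v))

theorem card_ne_zero' : Fintype.card F ≠ 0 := Fintype.card_ne_zero

theorem tw_om_eq (Q : ℕ) (v : Fin (m + 1) → F) :
    tw (om : Fin (m + 1) → KK F m) Q v
      = algebraMap (MvPolynomial (Fin (m + 1)) F) (KK F m) (tw (fun s => X s) Q v) := by
  exact (map_tw (IsScalarTower.toAlgHom F (MvPolynomial (Fin (m + 1)) F) (KK F m))
    (fun s => X s) Q v).symm

theorem el_ne_zero (v : ι → Fin (m + 1) → F) (hv : ∀ i, v i ≠ 0) (j : ℕ) (i : ι) :
    el v j i ≠ 0 := by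
  rw [el, tw_om_eq]
  have h := tw_X_ne_zero (F := F) (Fintype.card F ^ (m - j)) (pow_ne_zero _ card_ne_zero') (v i) (hv i)
  intro h0
  apply h
  exact (IsFractionRing.injective (MvPolynomial (Fin (m + 1)) F) (KK F m)) (by rw [h0, map_zero])

theorem el_pow (v : ι → Fin (m + 1) → F) (j : ℕ) (hj : j < m) :
    el v (j + 1) ^ Fintype.card F = el v j := by
  funext i
  rw [Pi.pow_apply, el, tw_pow_card, el, ← pow_succ]
  congr 2
  omega

theorem xx_pow (v : ι → Fin (m + 1) → F) (s : Fin (m + 1)) : xx v s ^ Fintype.card F = xx v s := by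
  funext i
  rw [Pi.pow_apply, xx, ← map_pow, FiniteField.pow_card]

theorem el_eq_sum (v : ι → Fin (m + 1) → F) (j : ℕ) :
    el v j = ∑ s, (om s ^ (Fintype.card F ^ (m - j)) : KK F m) • xx v s := by
  funext i
  simp [el, tw, xx]

theorem el_mem_C1 (v : ι → Fin (m + 1) → F) (j : ℕ) : el v j ∈ C1 v := by
  rw [el_eq_sum]
  exact sum_mem fun s _ => smul_mem _ _ (subset_span ⟨s, rfl⟩)

theorem C1_le_span_el (hq : 1 < Fintype.card F) (v : ι → Fin (m + 1) → F) :
    C1 v ≤ span (KK F m) (Set.range (fun k : Fin (m + 1) => el v k)) := by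
  classical
  let M : Matrix (Fin (m + 1)) (Fin (m + 1)) (KK F m) :=
    Matrix.of (fun k s => (om s : KK F m) ^ (Fintype.card F ^ (m - (k : ℕ))))
  have hdet : M.det ≠ 0 := by
    have h := det_moore_ne_zero (F := F) (fun k : Fin (m + 1) => Fintype.card F ^ (m - (k : ℕ)))
      (by
        intro a b hab
        have := Nat.pow_right_injective hq hab
        have ha := a.2
        have hb := b.2
        ext
        omega)
    have h2 : M = (algebraMap (MvPolynomial (Fin (m + 1)) F) (KK F m)).mapMatrix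
        (Matrix.of (fun k s => (X s : MvPolynomial (Fin (m + 1)) F) ^
          (Fintype.card F ^ (m - (k : ℕ))))) := by
      ext1 k s
      simp [M, om]
    rw [h2, ← RingHom.map_det]
    intro h0
    exact h ((IsFractionRing.injective (MvPolynomial (Fin (m + 1)) F) (KK F m)) (by rw [h0, map_zero]))
  rw [C1, span_le]
  rintro _ ⟨s, rfl⟩
  have hinv : M⁻¹ * M = 1 := Matrix.nonsing_inv_mul M (Ne.isUnit hdet)
  have e : xx v s = ∑ k, M⁻¹ s k • el v (k : ℕ) := by
    have e1 : ∀ k : Fin (m + 1), el v (k : ℕ) = ∑ t, M k t • xx v t := fun k => el_eq_sum v k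
    calc xx v s = ∑ t, (1 : Matrix (Fin (m + 1)) (Fin (m + 1)) (KK F m)) s t • xx v t := by
          rw [Finset.sum_eq_single s]
          · simp
          · intro t _ ht; rw [Matrix.one_apply_ne (Ne.symm ht), zero_smul]
          · intro h; exact absurd (Finset.mem_univ s) h
      _ = ∑ t, (∑ k, M⁻¹ s k * M k t) • xx v t := by
          rw [← hinv]; rfl
      _ = ∑ k, M⁻¹ s k • ∑ t, M k t • xx v t := by
          simp_rw [Finset.sum_smul, Finset.smul_sum, smul_smul]
          exact Finset.sum_comm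
      _ = ∑ k, M⁻¹ s k • el v (k : ℕ) := by
          simp_rw [← e1]
  rw [e]
  exact sum_mem fun k _ => smul_mem _ _ (subset_span ⟨k, rfl⟩)

/-- `1 / ℓ_0` -/
noncomputable def uu (v : ι → Fin (m + 1) → F) : ι → KK F m := fun i => (el v 0 i)⁻¹

theorem el_mul_uu (v : ι → Fin (m + 1) → F) (hv : ∀ i, v i ≠ 0) : el v 0 * uu v = 1 := by
  funext i
  simp [uu, el_ne_zero v hv 0 i]

/-- the affine coordinates `z_l = ℓ_{l+1} / ℓ_0` -/
noncomputable def zz (v : ι → Fin (m + 1) → F) (l : Fin m) : ι → KK F m := el v (l + 1) * uu v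

/-- the monomials in the affine coordinates -/
noncomputable def vv (v : ι → Fin (m + 1) → F) (a : Fin m → ℕ) : ι → KK F m := ∏ l, zz v l ^ a l

theorem vv_add (v : ι → Fin (m + 1) → F) (a b : Fin m → ℕ) : vv v (a + b) = vv v a * vv v b := by
  simp [vv, pow_add, Finset.prod_mul_distrib]

theorem vv_zero (v : ι → Fin (m + 1) → F) : vv v 0 = 1 := by simp [vv]

theorem vv_single (v : ι → Fin (m + 1) → F) (l : Fin m) (k : ℕ) :
    vv v (Pi.single l k) = zz v l ^ k := by
  classical
  rw [vv, Finset.prod_eq_single l]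
  · simp
  · intro b _ hb; rw [Pi.single_eq_of_ne hb, pow_zero]
  · intro h; exact absurd (Finset.mem_univ l) h

/-- the space spanned by the monomials of degree at most `t` -/
noncomputable def SS (v : ι → Fin (m + 1) → F) (t : ℕ) : Submodule (KK F m) (ι → KK F m) :=
  span (KK F m) (vv v '' {a | ∑ l, a l ≤ t})

theorem SS_mul (v : ι → Fin (m + 1) → F) (s t : ℕ) {f g : ι → KK F m} (hf : f ∈ SS v s)
    (hg : g ∈ SS v t) : f * g ∈ SS v (s + t) := by
  have h : SS v s * SS v t ≤ SS v (s + t) := by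
    rw [SS, SS, span_mul_span, span_le]
    rintro _ ⟨_, ⟨a, ha, rfl⟩, _, ⟨b, hb, rfl⟩, rfl⟩
    refine subset_span ⟨a + b, ?_, vv_add v a b⟩
    simp only [Set.mem_ofPred_eq, Pi.add_apply, Finset.sum_add_distrib] at *
    omega
  exact h (mul_mem_mul hf hg)

theorem C1_uu (hq : 1 < Fintype.card F) (v : ι → Fin (m + 1) → F) (hv : ∀ i, v i ≠ 0)
    {f : ι → KK F m} (hf : f ∈ C1 v) : f * uu v ∈ SS v 1 := by
  have hf' := C1_le_span_el hq v hf
  have hle : span (KK F m) (Set.range (fun k : Fin (m + 1) => el v k))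
      ≤ (SS v 1).comap (LinearMap.mulRight (KK F m) (uu v)) := by
    rw [span_le]
    rintro _ ⟨k, rfl⟩
    simp only [comap_coe, Set.mem_preimage, LinearMap.mulRight_apply, SetLike.mem_coe]
    refine Fin.cases ?_ (fun l => ?_) k
    · have : el v ((0 : Fin (m + 1)) : ℕ) * uu v = vv v 0 := by
        rw [vv_zero]; exact el_mul_uu v hv
      rw [this]
      exact subset_span ⟨0, by simp, rfl⟩
    · have : el v ((l.succ : Fin (m + 1)) : ℕ) * uu v = vv v (Pi.single l 1) := by
        rw [vv_single, pow_one]; rfl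
      rw [this]
      refine subset_span ⟨Pi.single l 1, ?_, rfl⟩
      simp [Finset.sum_pi_single']
  exact hle hf'

theorem Cpow_uu (hq : 1 < Fintype.card F) (v : ι → Fin (m + 1) → F) (hv : ∀ i, v i ≠ 0) (t : ℕ)
    {f : ι → KK F m} (hf : f ∈ C1 v ^ t) : f * uu v ^ t ∈ SS v t := by
  induction t generalizing f with
  | zero =>
    rw [pow_zero] at hf
    rw [pow_zero, mul_one]
    obtain ⟨c, rfl⟩ := Submodule.mem_one.mp hf
    rw [Algebra.algebraMap_eq_smul_one, ← vv_zero v]
    exact smul_mem _ _ (subset_span ⟨0, by simp, rfl⟩)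
  | succ t ih =>
    rw [pow_succ] at hf
    refine Submodule.mul_induction_on hf ?_ ?_
    · intro g hg h hh
      have h1 := ih hg
      have h2 := C1_uu hq v hv hh
      have h3 := SS_mul v t 1 h1 h2
      have e : g * h * uu v ^ (t + 1) = g * uu v ^ t * (h * uu v) := by ring
      rw [e]; exact h3
    · intro x y hx hy
      rw [add_mul]; exact add_mem hx hy

theorem vv_mem (v : ι → Fin (m + 1) → F) (hv : ∀ i, v i ≠ 0) (t : ℕ) (a : Fin m → ℕ)
    (ha : ∑ l, a l ≤ t) : ∃ f ∈ C1 v ^ t, vv v a = f * uu v ^ t := by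
  refine ⟨(∏ l : Fin m, el v (l + 1) ^ a l) * el v 0 ^ (t - ∑ l, a l), ?_, ?_⟩
  · have e : C1 v ^ t = C1 v ^ (∑ l, a l) * C1 v ^ (t - ∑ l, a l) := by
      rw [← pow_add]; congr 1; omega
    rw [e]
    apply mul_mem_mul
    · have H : ∀ s : Finset (Fin m), (∏ l ∈ s, el v (l + 1) ^ a l) ∈ C1 v ^ (∑ l ∈ s, a l) := by
        classical
        intro s
        induction s using Finset.induction_on with
        | empty => simp [Submodule.one_le.mp le_rfl]
        | insert b s hb ih =>
          rw [Finset.prod_insert hb, Finset.sum_insert hb, pow_add]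
          exact mul_mem_mul (pow_mem_pow _ (el_mem_C1 v _) _) ih
      exact H Finset.univ
    · exact pow_mem_pow _ (el_mem_C1 v _) _
  · have e1 : vv v a = (∏ l : Fin m, el v (l + 1) ^ a l) * uu v ^ (∑ l, a l) := by
      rw [vv, ← Finset.prod_pow_eq_pow_sum, ← Finset.prod_mul_distrib]
      refine Finset.prod_congr rfl fun l _ => ?_
      rw [zz, mul_pow]
    have e2 : uu v ^ t = uu v ^ (∑ l, a l) * uu v ^ (t - ∑ l, a l) := by
      rw [← pow_add]; congr 1; omega
    have e3 : el v 0 ^ (t - ∑ l, a l) * uu v ^ (t - ∑ l, a l) = 1 := by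
      rw [← mul_pow, el_mul_uu v hv, one_pow]
    rw [e1, e2]
    calc (∏ l : Fin m, el v (l + 1) ^ a l) * uu v ^ (∑ l, a l)
        = (∏ l : Fin m, el v (l + 1) ^ a l) * uu v ^ (∑ l, a l) *
          (el v 0 ^ (t - ∑ l, a l) * uu v ^ (t - ∑ l, a l)) := by rw [e3, mul_one]
      _ = _ := by ring

theorem finrank_SS_le (v : ι → Fin (m + 1) → F) (hv : ∀ i, v i ≠ 0) (t : ℕ) :
    finrank (KK F m) (SS v t) ≤ finrank (KK F m) (C1 v ^ t : Submodule (KK F m) (ι → KK F m)) := by
  have hle : SS v t ≤ (C1 v ^ t).map (LinearMap.mulRight (KK F m) (uu v ^ t)) := by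
    rw [SS, span_le]
    rintro _ ⟨a, ha, rfl⟩
    obtain ⟨f, hf, hfe⟩ := vv_mem v hv t a ha
    exact ⟨f, hf, by rw [hfe]; rfl⟩
  exact (finrank_mono hle).trans (finrank_map_le _ _)

end B04
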