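import Pool.Agent.Lib.MP_0b0414_ag.Alg1

/-!
# The standard monomials: down-closedness, number, the box condition (A)
-/

set_option linter.unusedSectionVars false

open MvPolynomial Submodule Module

namespace B04

variable {F : Type*} [Field F] [Fintype F] {m : ℕ} {ι : Type*} [Fintype ι]

/-- the standard monomials -/
def DD (v : ι → Fin (m + 1) → F) : Set (Fin m → ℕ) := Std (KK F m) key (vv v)

theorem mem_DD {v : ι → Fin (m + 1) → F} {a : Fin m → ℕ} :
    a ∈ DD v ↔ vv v a ∉ span (KK F m) (vv v '' {b | key b < key a}) := Iff.rfl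

theorem DD_down {v : ι → Fin (m + 1) → F} {a b : Fin m → ℕ} (ha : a ∈ DD v) (hb : b ≤ a) :
    b ∈ DD v := by
  rw [mem_DD] at *
  intro h
  apply ha
  obtain ⟨c, rfl⟩ : ∃ c, a = b + c := ⟨a - b, by
    funext i
    have h : b i ≤ a i := hb i
    rw [Pi.add_apply, Pi.sub_apply]
    omega⟩
  have hle : span (KK F m) (vv v '' {b' | key b' < key b})
      ≤ (span (KK F m) (vv v '' {b' | key b' < key (b + c)})).comap
        (LinearMap.mulRight (KK F m) (vv v c)) := by
    rw [span_le]
    rintro _ ⟨b', hb', rfl⟩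
    simp only [comap_coe, Set.mem_preimage, LinearMap.mulRight_apply, SetLike.mem_coe]
    rw [← vv_add]
    exact subset_span ⟨b' + c, key_lt_add c hb', rfl⟩
  have := hle h
  simp only [mem_comap, LinearMap.mulRight_apply] at this
  rw [vv_add]
  exact this

theorem C1_le_pow (v : ι → Fin (m + 1) → F) : C1 v ≤ C1 v ^ Fintype.card F := by
  rw [C1, span_le]
  rintro _ ⟨s, rfl⟩
  rw [← xx_pow]
  exact pow_mem_pow _ (subset_span (Set.mem_range_self s)) _

theorem box_aux (hq : 1 < Fintype.card F) (v : ι → Fin (m + 1) → F) (hv : ∀ i, v i ≠ 0)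
    (i i' : Fin m) (hii : i ≤ i') :
    (Pi.single i (Fintype.card F) + Pi.single i' 1 : Fin m → ℕ) ∉ DD v := by
  classical
  rw [mem_DD, not_not]
  set q := Fintype.card F with hqdef
  have e0 : vv v (Pi.single i q + Pi.single i' 1)
      = (el v i * uu v) * (el v (i' + 1) * uu v ^ q) := by
    rw [vv_add, vv_single, vv_single, pow_one]
    have h1 : zz v i ^ q = el v i * uu v ^ q := by
      rw [zz, mul_pow, el_pow v i i.2]
    rw [h1, zz]
    have h2 : uu v ^ q * uu v = uu v * uu v ^ q := mul_comm _ _
    calc el v i * uu v ^ q * (el v (i' + 1) * uu v)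
        = el v i * el v (i' + 1) * (uu v ^ q * uu v) := by ring
      _ = _ := by rw [h2]; ring
  have h1 : el v (i' + 1) * uu v ^ q ∈ SS v q := Cpow_uu hq v hv q (C1_le_pow v (el_mem_C1 v _))
  rw [e0]
  -- multiplication by `ℓ_i / ℓ_0`
  have hle : SS v q ≤ (span (KK F m) (vv v '' {b | key b < key (Pi.single i q + Pi.single i' 1)})).comap
        (LinearMap.mulLeft (KK F m) (el v i * uu v)) := by
    rw [SS, span_le]
    rintro _ ⟨b, hb, rfl⟩
    simp only [comap_coe, Set.mem_preimage, LinearMap.mulLeft_apply, SetLike.mem_coe]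
    have hb' : ∑ l, b l ≤ q := hb
    rcases Nat.eq_zero_or_pos (i : ℕ) with h0 | hpos
    · have e1 : el v i * uu v = 1 := by rw [h0]; exact el_mul_uu v hv
      rw [e1, one_mul]
      refine subset_span ⟨b, ?_, rfl⟩
      apply key_lt_of_sum_lt
      simp only [Pi.add_apply, Finset.sum_add_distrib, Finset.sum_pi_single', Finset.mem_univ, if_true]
      omega
    · obtain ⟨l, hl⟩ : ∃ l : Fin m, (i : ℕ) = l + 1 := ⟨⟨i - 1, by have := i.2; omega⟩, by simp; omega⟩
      have e1 : el v i * uu v = vv v (Pi.single l 1) := by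
        rw [vv_single, pow_one, zz, hl]
      rw [e1, ← vv_add]
      refine subset_span ⟨_, ?_, rfl⟩
      have hli : l < i := by rw [Fin.lt_def]; omega
      apply key_lt_of i
      · intro j hj
        rw [tail_add, tail_add, Pi.add_apply, Pi.add_apply, tail_single, tail_single, tail_single,
          if_pos hj, if_pos (hj.trans hii)]
        have := tail_le_sum b j
        split_ifs <;> omega
      · rw [tail_add, tail_add, Pi.add_apply, Pi.add_apply, tail_single, tail_single, tail_single,
          if_pos le_rfl, if_pos hii, if_neg (not_le.mpr hli)]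
        have := tail_le_sum b i
        omega
  exact hle h1

/-- property (A) -/
theorem DD_box (hq : 1 < Fintype.card F) (v : ι → Fin (m + 1) → F) (hv : ∀ i, v i ≠ 0)
    {a : Fin m → ℕ} (ha : a ∈ DD v) {i : Fin m} (hi : Fintype.card F ≤ a i) :
    a i = Fintype.card F ∧ ∀ i', i < i' → a i' = 0 := by
  classical
  constructor
  · by_contra hne
    have hlt : Fintype.card F + 1 ≤ a i := by omega
    apply box_aux hq v hv i i le_rfl
    apply DD_down ha
    intro j
    rw [Pi.add_apply]
    rcases eq_or_ne j i with rfl | hj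
    · simp; omega
    · simp [hj]
  · intro i' hii
    by_contra hne
    apply box_aux hq v hv i i' hii.le
    apply DD_down ha
    intro j
    rw [Pi.add_apply]
    rcases eq_or_ne j i with rfl | hj
    · rw [Pi.single_eq_same, Pi.single_eq_of_ne hii.ne]; omega
    · rw [Pi.single_eq_of_ne hj]
      rcases eq_or_ne j i' with rfl | hj'
      · rw [Pi.single_eq_same]
        show 0 + 1 ≤ a j
        omega
      · rw [Pi.single_eq_of_ne hj']
        exact Nat.zero_le _

/-- the first affine coordinate separates the points -/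
theorem zz_injective (hq : 1 < Fintype.card F) (hm : 0 < m) (v : ι → Fin (m + 1) → F)
    (hv : ∀ i, v i ≠ 0)
    (hvp : ∀ i j, ∀ c : F, v i = c • v j → i = j) : Function.Injective (zz v ⟨0, hm⟩) := by
  classical
  intro i j hij
  have h1 : el v 1 i * el v 0 j = el v 1 j * el v 0 i := by
    have hi := el_ne_zero v hv 0 i
    have hj := el_ne_zero v hv 0 j
    simp only [zz, uu, Pi.mul_apply, zero_add] at hij
    field_simp at hij
    linear_combination hij
  simp only [el, tw_om_eq] at h1
  rw [← map_mul, ← map_mul] at h1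
  have h2 := (IsFractionRing.injective (MvPolynomial (Fin (m + 1)) F) (KK F m)) h1
  have hne : Fintype.card F ^ (m - 1) ≠ Fintype.card F ^ (m - 0) := by
    intro h
    have := Nat.pow_right_injective hq h
    simp at this; omega
  have h3 := cross_eq (F := F) _ _ hne (pow_ne_zero _ card_ne_zero') (pow_ne_zero _ card_ne_zero') _ _ h2
  obtain ⟨t, ht⟩ : ∃ t, v j t ≠ 0 := by
    by_contra h
    push Not at h
    exact hv j (funext h)
  apply hvp i j (v i t / v j t)
  funext s
  simp only [Pi.smul_apply, smul_eq_mul]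
  have := h3 s t
  field_simp
  linear_combination this

theorem span_vv_top (hq : 1 < Fintype.card F) (hm : 0 < m) (v : ι → Fin (m + 1) → F)
    (hv : ∀ i, v i ≠ 0) (hvp : ∀ i j, ∀ c : F, v i = c • v j → i = j) :
    span (KK F m) (vv v '' Set.univ) = ⊤ := by
  classical
  rw [eq_top_iff]
  intro f _
  have hinj := zz_injective hq hm v hv hvp
  set P := Lagrange.interpolate Finset.univ (zz v ⟨0, hm⟩) f with hP
  have hev : ∀ i, P.eval (zz v ⟨0, hm⟩ i) = f i := fun i =>
    Lagrange.eval_interpolate_at_node f (hinj.injOn) (Finset.mem_univ i)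
  have : f = ∑ k ∈ Finset.range (P.natDegree + 1), P.coeff k • vv v (Pi.single ⟨0, hm⟩ k) := by
    funext i
    rw [← hev i, Polynomial.eval_eq_sum_range]
    simp [Finset.sum_apply, vv_single]
  rw [this]
  exact sum_mem fun k _ => smul_mem _ _ (subset_span ⟨_, Set.mem_univ _, rfl⟩)

theorem DD_finite_card (hq : 1 < Fintype.card F) (hm : 0 < m) (v : ι → Fin (m + 1) → F)
    (hv : ∀ i, v i ≠ 0) (hvp : ∀ i j, ∀ c : F, v i = c • v j → i = j) :
    (DD v).Finite ∧ (DD v).ncard = Fintype.card ι := by
  have h := ncard_std (K := KK F m) key key_injective (vv v) Set.univ (fun _ _ _ _ => Set.mem_univ _)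
  rw [Set.univ_inter, span_vv_top hq hm v hv hvp, finrank_top, finrank_fintype_fun_eq_card] at h
  exact h

theorem DD_le_card (v : ι → Fin (m + 1) → F) (hv : ∀ i, v i ≠ 0) (t : ℕ) :
    ({a | ∑ l, a l ≤ t} ∩ DD v).ncard
      ≤ finrank (KK F m) (C1 v ^ t : Submodule (KK F m) (ι → KK F m)) := by
  have h := ncard_std (K := KK F m) key key_injective (vv v) {a | ∑ l, a l ≤ t}
    (fun a ha b hb => by
      have h1 := sum_le_of_key_lt hb
      have h2 : ∑ l, a l ≤ t := ha
      exact h1.trans h2)
  calc ({a | ∑ l, a l ≤ t} ∩ DD v).ncard = finrank (KK F m) (SS v t) := h.2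
    _ ≤ _ := finrank_SS_le v hv t

end B04
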