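import Pool.Agent.Lib.MP_0b0414_ag.Core

/-!
# Property (B)
-/

set_option linter.unusedSectionVars false

open MvPolynomial Submodule Module

namespace B04

variable {F : Type*} [Field F] [Fintype F] {m : ℕ} {ι : Type*} [Fintype ι]

/-- the functions divisible by one of the first `J` twisted forms -/
noncomputable def WW (v : ι → Fin (m + 1) → F) (J d : ℕ) : Submodule (KK F m) (ι → KK F m) :=
  span (KK F m) {h | ∃ k < J, ∃ g ∈ C1 v ^ (d - 1), h = el v k * g}

/-- (B1) -/
theorem single_not_mem (hq : 1 < Fintype.card F) (v : ι → Fin (m + 1) → F) (hv : ∀ i, v i ≠ 0)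
    (j : Fin m) (d : ℕ) (hd1 : 1 ≤ d) (h : el v (j + 1) ^ d ∈ WW v (j + 1) d) :
    (Pi.single j d : Fin m → ℕ) ∉ DD v := by
  classical
  rw [mem_DD, not_not]
  have hle : WW v (j + 1) d ≤ (span (KK F m) (vv v '' {b | key b < key (Pi.single j d : Fin m → ℕ)})).comap
      (LinearMap.mulRight (KK F m) (uu v ^ d)) := by
    rw [WW, span_le]
    rintro _ ⟨k, hk, g, hg, rfl⟩
    simp only [comap_coe, Set.mem_preimage, LinearMap.mulRight_apply, SetLike.mem_coe]
    have h1 := Cpow_uu hq v hv (d - 1) hg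
    have e : el v k * g * uu v ^ d = (el v k * uu v) * (g * uu v ^ (d - 1)) := by
      obtain ⟨d', rfl⟩ : ∃ d', d = d' + 1 := ⟨d - 1, by omega⟩
      simp only [Nat.add_sub_cancel]
      ring
    rw [e]
    have hle' : SS v (d - 1) ≤ (span (KK F m) (vv v '' {b | key b < key (Pi.single j d : Fin m → ℕ)})).comap
        (LinearMap.mulLeft (KK F m) (el v k * uu v)) := by
      rw [SS, span_le]
      rintro _ ⟨b, hb, rfl⟩
      simp only [comap_coe, Set.mem_preimage, LinearMap.mulLeft_apply, SetLike.mem_coe]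
      have hb' : ∑ l, b l ≤ d - 1 := hb
      rcases Nat.eq_zero_or_pos k with h0 | hpos
      · have e1 : el v k * uu v = 1 := by rw [h0]; exact el_mul_uu v hv
        rw [e1, one_mul]
        refine subset_span ⟨b, ?_, rfl⟩
        apply key_lt_of_sum_lt
        simp only [Finset.sum_pi_single', Finset.mem_univ, if_true]
        omega
      · obtain ⟨l, hl⟩ : ∃ l : Fin m, k = l + 1 := ⟨⟨k - 1, by have := j.2; omega⟩, by simp; omega⟩
        have e1 : el v k * uu v = vv v (Pi.single l 1) := by
          rw [vv_single, pow_one, zz, hl]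
        rw [e1, ← vv_add]
        refine subset_span ⟨_, ?_, rfl⟩
        have hlj : l < j := by rw [Fin.lt_def]; omega
        apply key_lt_of j
        · intro i hi
          rw [tail_add, Pi.add_apply, tail_single, tail_single, if_pos hi]
          have := tail_le_sum b i
          split_ifs <;> omega
        · rw [tail_add, Pi.add_apply, tail_single, tail_single, if_pos le_rfl, if_neg (not_le.mpr hlj)]
          have := tail_le_sum b j
          omega
    exact hle' h1
  have h2 := hle h
  simp only [mem_comap, LinearMap.mulRight_apply] at h2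
  rw [vv_single, zz, mul_pow]
  exact h2

/-- (B3): a relation with polynomial coefficients -/
theorem exists_relation (v : ι → Fin (m + 1) → F) (J d : ℕ)
    (hlt : finrank (KK F m) (C1 v ^ d : Submodule (KK F m) (ι → KK F m)) < (J + d).choose d) :
    ∃ c : (Fin (J + 1) →₀ ℕ) → MvPolynomial (Fin (m + 1)) F,
      (∀ i, ∑ α ∈ Finset.finsuppAntidiag Finset.univ d,
        c α * ∏ k : Fin (J + 1), tw (fun s => X s) (Fintype.card F ^ (m - (k : ℕ))) (v i) ^ α k = 0) ∧
      ∃ α ∈ Finset.finsuppAntidiag Finset.univ d, c α ≠ 0 := by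
  classical
  set S : Finset (Fin (J + 1) →₀ ℕ) := Finset.finsuppAntidiag Finset.univ d with hS
  have hcard : S.card = (J + d).choose d := by
    rw [hS, Finset.card_finsuppAntidiag_nat_eq_choose, Finset.card_univ, Fintype.card_fin]
    congr 1
    omega
  have hmem : ∀ α ∈ S, (∏ k : Fin (J + 1), el v k ^ α k) ∈ C1 v ^ d := by
    intro α hα
    rw [hS, Finset.mem_finsuppAntidiag] at hα
    have H : ∀ s : Finset (Fin (J + 1)), (∏ k ∈ s, el v k ^ α k) ∈ C1 v ^ (∑ k ∈ s, α k) := by
      intro s
      induction s using Finset.induction_on with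
      | empty => simp [Submodule.one_le.mp le_rfl]
      | insert b s hb ih =>
        rw [Finset.prod_insert hb, Finset.sum_insert hb, pow_add]
        exact mul_mem_mul (pow_mem_pow _ (el_mem_C1 v _) _) ih
    have h1 := H Finset.univ
    have h2 : ∑ k ∈ Finset.univ, α k = d := hα.1
    rw [h2] at h1
    exact h1
  have hdep : ¬ LinearIndependent (KK F m)
      (fun α : S => (⟨∏ k : Fin (J + 1), el v k ^ (α : Fin (J + 1) →₀ ℕ) k, hmem α α.2⟩ : (C1 v ^ d : Submodule (KK F m) (ι → KK F m)))) := by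
    intro hli
    have := hli.fintype_card_le_finrank
    rw [Fintype.card_coe, hcard] at this
    omega
  rw [Fintype.not_linearIndependent_iff] at hdep
  obtain ⟨g, hg, α0, hα0⟩ := hdep
  obtain ⟨b, hb⟩ := IsLocalization.exist_integer_multiples_of_finite
    (nonZeroDivisors (MvPolynomial (Fin (m + 1)) F)) g
  choose c hc using hb
  refine ⟨fun α => if h : α ∈ S then c ⟨α, h⟩ else 0, ?_, α0, α0.2, ?_⟩
  · intro i
    apply IsFractionRing.injective (MvPolynomial (Fin (m + 1)) F) (KK F m)
    rw [map_zero, map_sum, ← Finset.sum_coe_sort]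
    have h1 := congrArg (fun z : (C1 v ^ d : Submodule (KK F m) (ι → KK F m)) => (z : ι → KK F m) i) hg
    simp only [AddSubmonoidClass.coe_finsetSum, SetLike.val_smul, Finset.sum_apply, Pi.smul_apply,
      smul_eq_mul, ZeroMemClass.coe_zero, Pi.zero_apply] at h1
    have h2 : ∑ α : S, algebraMap (MvPolynomial (Fin (m + 1)) F) (KK F m)
        ((if h : (α : Fin (J + 1) →₀ ℕ) ∈ S then c ⟨α, h⟩ else 0) *
          ∏ k : Fin (J + 1), tw (fun s => X s) (Fintype.card F ^ (m - (k : ℕ))) (v i) ^ (α : Fin (J + 1) →₀ ℕ) k)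
        = algebraMap (MvPolynomial (Fin (m + 1)) F) (KK F m) (b : MvPolynomial (Fin (m + 1)) F) *
          ∑ α : S, g α * (∏ k : Fin (J + 1), el v k ^ (α : Fin (J + 1) →₀ ℕ) k) i := by
      rw [Finset.mul_sum]
      refine Finset.sum_congr rfl fun α _ => ?_
      rw [dif_pos α.2, map_mul, hc, Algebra.smul_def, mul_assoc, map_prod, Finset.prod_apply]
      congr 2
      refine Finset.prod_congr rfl fun k _ => ?_
      rw [map_pow, ← tw_om_eq, Pi.pow_apply]
      rfl
    rw [h2, h1, mul_zero]
  · have hbeta : (fun α => if h : α ∈ S then c ⟨α, h⟩ else 0) (α0 : Fin (J + 1) →₀ ℕ) = c ⟨α0, α0.2⟩ := by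
      simp only [dif_pos α0.2]
    rw [hbeta]
    intro h0
    have h1 := hc α0
    have h2 : c ⟨α0, α0.2⟩ = c α0 := rfl
    rw [h2] at h0
    rw [h0, map_zero, Algebra.smul_def] at h1
    rcases mul_eq_zero.mp h1.symm with h3 | h3
    · have := (IsFractionRing.injective (MvPolynomial (Fin (m + 1)) F) (KK F m)) (h3.trans (map_zero _).symm)
      exact nonZeroDivisors.coe_ne_zero b this
    · exact hα0 h3

/-- property (B) -/
theorem DD_B (hq : 1 < Fintype.card F) (v : ι → Fin (m + 1) → F) (hv : ∀ i, v i ≠ 0)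
    (j : Fin m) (d : ℕ) (hd1 : 1 ≤ d) (hd : d < Fintype.card F)
    (h : (Pi.single j d : Fin m → ℕ) ∈ DD v) :
    ((j : ℕ) + 1 + d).choose d ≤ finrank (KK F m) (C1 v ^ d : Submodule (KK F m) (ι → KK F m)) := by
  classical
  by_contra hlt
  push Not at hlt
  obtain ⟨c, hc, hne⟩ := exists_relation v ((j : ℕ) + 1) d hlt
  have hnot : el v (j + 1) ^ d ∉ WW v (j + 1) d := fun hmem =>
    single_not_mem hq v hv j d hd1 hmem h
  obtain ⟨φ, hφ1, hφ2⟩ := Submodule.exists_dual_map_eq_bot_of_notMem hnot inferInstance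
  have hφ : ∀ g, φ g = ∑ i, φ (Pi.single i 1) * g i := by
    intro g
    conv_lhs => rw [← Finset.univ_sum_single g]
    rw [map_sum]
    refine Finset.sum_congr rfl fun i _ => ?_
    have : (Pi.single i (g i) : ι → KK F m) = g i • Pi.single i 1 := by
      rw [← Pi.single_smul, smul_eq_mul, mul_one]
    rw [this, map_smul, smul_eq_mul, mul_comm]
  have hcore := core_lemma v ((j : ℕ) + 1) j.2 d hd (fun i => φ (Pi.single i 1)) ?_ c hc hne
  · apply hφ1
    rw [hφ]
    exact hcore
  · intro k hk g hg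
    have h1 : φ (el v k * g) = 0 := by
      have h2 : el v k * g ∈ WW v (j + 1) d := subset_span ⟨k, hk, g, hg, rfl⟩
      have h3 : φ (el v k * g) ∈ (WW v (j + 1) d).map φ := mem_map_of_mem h2
      rw [hφ2] at h3
      exact (Submodule.mem_bot _).mp h3
    rw [hφ] at h1
    exact h1

end B04
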