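import Pool.Agent.Lib.MP_0b0414_ag.Alg3

/-!
# The dimension of the space of functions of degree `d`
-/

set_option linter.unusedSectionVars false

open MvPolynomial Submodule Module

namespace B04

variable {F : Type*} [Field F] [Fintype F] {m : ℕ} {ι : Type*} [Fintype ι]

open Classical in
theorem hom_le_span (d : ℕ) : homogeneousSubmodule (Fin (m + 1)) F d ≤
    span F (((Finset.finsuppAntidiag (Finset.univ : Finset (Fin (m + 1))) d).image
      (fun α => monomial α (1 : F)) : Finset (MvPolynomial (Fin (m + 1)) F)) :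
        Set (MvPolynomial (Fin (m + 1)) F)) := by
  classical
  intro p hp
  rw [mem_homogeneousSubmodule] at hp
  rw [p.as_sum]
  apply sum_mem
  intro α hα
  have e : monomial α (coeff α p) = coeff α p • monomial α (1 : F) := by
    rw [smul_monomial, smul_eq_mul, mul_one]
  rw [e]
  apply smul_mem
  apply subset_span
  rw [Finset.mem_coe, Finset.mem_image]
  refine ⟨α, ?_, rfl⟩
  rw [Finset.mem_finsuppAntidiag]
  refine ⟨?_, Finset.subset_univ _⟩
  have h1 := hp (mem_support_iff.mp hα)
  rw [Finsupp.weight_apply, Finsupp.sum_fintype _ _ (by simp)] at h1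
  simpa using h1

theorem finite_hom (d : ℕ) : FiniteDimensional F (homogeneousSubmodule (Fin (m + 1)) F d) :=
  Submodule.finiteDimensional_of_le (hom_le_span d)

theorem finrank_hom_le (d : ℕ) :
    finrank F (homogeneousSubmodule (Fin (m + 1)) F d) ≤ (m + d).choose d := by
  classical
  refine (Submodule.finrank_mono (hom_le_span d)).trans ?_
  refine (finrank_span_finset_le_card (R := F) (M := MvPolynomial (Fin (m + 1)) F) _).trans ?_
  refine Finset.card_image_le.trans ?_
  rw [Finset.card_finsuppAntidiag_nat_eq_choose, Finset.card_univ, Fintype.card_fin]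
  apply le_of_eq
  congr 1
  omega

/-- evaluation at the points -/
noncomputable def ev (v : ι → Fin (m + 1) → F) : MvPolynomial (Fin (m + 1)) F →ₐ[F] (ι → KK F m) :=
  aeval (xx v)

theorem ev_apply (v : ι → Fin (m + 1) → F) (p : MvPolynomial (Fin (m + 1)) F) (i : ι) :
    ev v p i = algebraMap F (KK F m) (eval (v i) p) := by
  have h : ((Pi.evalAlgHom F (fun _ : ι => KK F m) i).comp (ev v))
      = (Algebra.ofId F (KK F m)).comp (aeval (v i)) := by
    apply MvPolynomial.algHom_ext
    intro s
    simp [ev, xx, Algebra.ofId_apply]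
  have h2 := congrArg (fun g => g p) (congrArg DFunLike.coe h)
  simp only [AlgHom.comp_apply, Pi.evalAlgHom_apply, Algebra.ofId_apply] at h2
  rw [h2, aeval_def, eval, coe_eval₂Hom]
  rfl

theorem C1_pow_le_ev (v : ι → Fin (m + 1) → F) (d : ℕ) :
    C1 v ^ d ≤ span (KK F m) (ev v '' (homogeneousSubmodule (Fin (m + 1)) F d : Set _)) := by
  induction d with
  | zero =>
    rw [pow_zero, Submodule.one_le]
    refine subset_span ⟨1, ?_, map_one _⟩
    rw [SetLike.mem_coe, mem_homogeneousSubmodule]
    exact isHomogeneous_one _ _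
  | succ d ih =>
    rw [pow_succ]
    refine (mul_le_mul' ih le_rfl).trans ?_
    rw [C1, span_mul_span, span_le]
    rintro _ ⟨_, ⟨p, hp, rfl⟩, _, ⟨s, rfl⟩, rfl⟩
    refine subset_span ⟨p * X s, ?_, ?_⟩
    · rw [SetLike.mem_coe, mem_homogeneousSubmodule] at *
      exact hp.mul (isHomogeneous_X _ _)
    · simp only [map_mul]
      congr 1
      simp [ev]

theorem finrank_C1_pow_add (v : ι → Fin (m + 1) → F) (d r : ℕ)
    (G : Fin r → MvPolynomial (Fin (m + 1)) F) (hG : ∀ i, (G i).IsHomogeneous d)
    (hli : LinearIndependent F G) (hvan : ∀ i j, eval (v j) (G i) = 0) :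
    finrank (KK F m) (C1 v ^ d : Submodule (KK F m) (ι → KK F m)) + r ≤ (m + d).choose d := by
  classical
  have := finite_hom (F := F) (m := m) d
  set φ : homogeneousSubmodule (Fin (m + 1)) F d →ₗ[F] (ι → KK F m) :=
    (ev v).toLinearMap.comp (homogeneousSubmodule (Fin (m + 1)) F d).subtype with hφ
  have h1 := LinearMap.finrank_range_add_finrank_ker φ
  have h2 : r ≤ finrank F (LinearMap.ker φ) := by
    have hmem : ∀ i, (⟨G i, (mem_homogeneousSubmodule d (G i)).mpr (hG i)⟩ :
        homogeneousSubmodule (Fin (m + 1)) F d) ∈ LinearMap.ker φ := by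
      intro i
      rw [LinearMap.mem_ker]
      funext j
      show ev v (G i) j = 0
      rw [ev_apply, hvan, map_zero]
    have hli2 : LinearIndependent F (fun i => (⟨⟨G i, (mem_homogeneousSubmodule d (G i)).mpr (hG i)⟩, hmem i⟩ :
        LinearMap.ker φ)) := by
      apply LinearIndependent.of_comp ((homogeneousSubmodule (Fin (m + 1)) F d).subtype.comp
        (LinearMap.ker φ).subtype)
      exact hli
    have := hli2.fintype_card_le_finrank
    rwa [Fintype.card_fin] at this
  have h3 : finrank (KK F m) (C1 v ^ d : Submodule (KK F m) (ι → KK F m))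
      ≤ finrank F (LinearMap.range φ) := by
    let b := Module.finBasis F (LinearMap.range φ)
    have hle : C1 v ^ d ≤ span (KK F m) (Set.range (fun k => (b k : ι → KK F m))) := by
      refine (C1_pow_le_ev v d).trans ?_
      rw [span_le]
      rintro _ ⟨p, hp, rfl⟩
      have hr : ev v p ∈ LinearMap.range φ := ⟨⟨p, hp⟩, rfl⟩
      have hs := b.sum_repr ⟨ev v p, hr⟩
      have hs' := congrArg (fun z : LinearMap.range φ => (z : ι → KK F m)) hs
      simp only [AddSubmonoidClass.coe_finsetSum, SetLike.val_smul] at hs'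
      rw [SetLike.mem_coe, ← hs']
      apply sum_mem
      intro k _
      rw [← algebraMap_smul (KK F m)]
      exact smul_mem _ _ (subset_span ⟨k, rfl⟩)
    refine (finrank_mono hle).trans ?_
    refine (finrank_range_le_card _).trans ?_
    rw [Fintype.card_fin]
  have h4 := finrank_hom_le (F := F) (m := m) d
  omega

end B04
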