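import Pool.Agent.Lib.MP_0b0414_ag.Defs

open Finset
namespace B04

/-! ### digit sums -/

theorem ds_zero (q : ℕ) : ds q 0 = 0 := by simp [ds]

theorem ds_mul_add (q : ℕ) (hq : 2 ≤ q) (x j : ℕ) (hj : j < q) : ds q (q * x + j) = ds q x + j := by
  unfold ds
  rcases Nat.eq_zero_or_pos x with rfl | hx
  · rcases Nat.eq_zero_or_pos j with rfl | hj0
    · simp
    · rw [mul_zero, zero_add, Nat.digits_of_lt q j hj0.ne' hj]; simp
  · rw [add_comm, Nat.digits_add q (by omega) j x hj (Or.inr hx.ne')]
    simp [add_comm]

theorem ds_of_lt (q : ℕ) (hq : 2 ≤ q) (j : ℕ) (hj : j < q) : ds q j = j := by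
  have := ds_mul_add q hq 0 j hj
  simpa [ds_zero] using this

theorem ds_succ_le (q : ℕ) (hq : 2 ≤ q) (x : ℕ) : ds q (x + 1) ≤ ds q x + 1 := by
  induction x using Nat.strong_induction_on with
  | _ x ih =>
    have hx := Nat.div_add_mod x q
    have hj : x % q < q := Nat.mod_lt _ (by omega)
    by_cases hc : x % q + 1 < q
    · have e1 : x + 1 = q * (x / q) + (x % q + 1) := by omega
      have e2 : ds q x = ds q (x / q) + x % q := by
        conv_lhs => rw [← hx]
        exact ds_mul_add q hq _ _ hj
      rw [e1, ds_mul_add q hq _ _ hc, e2]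
      omega
    · have e0 : x % q = q - 1 := by omega
      have e1 : x + 1 = q * (x / q + 1) + 0 := by
        rw [mul_add, mul_one]; omega
      have e2 : ds q x = ds q (x / q) + x % q := by
        conv_lhs => rw [← hx]
        exact ds_mul_add q hq _ _ hj
      have hlt : x / q < x := by
        apply Nat.div_lt_self _ (by omega)
        by_contra h0
        have : x = 0 := by omega
        subst this
        simp at e0
        omega
      rw [e1, ds_mul_add q hq _ _ (by omega), e2]
      have := ih _ hlt
      omega

theorem ds_add_le (q : ℕ) (hq : 2 ≤ q) (x k : ℕ) : ds q (x + k) ≤ ds q x + k := by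
  induction k with
  | zero => simp
  | succ k ih =>
    have := ds_succ_le q hq (x + k)
    rw [← add_assoc]; omega

/-! ### the counting function with a strict bound -/

/-- number of `x < n` with digit sum `< t` -/
def cst (q t n : ℕ) : ℕ := ((range n).filter (fun x => ds q x < t)).card

theorem cost_eq_cst (q d n : ℕ) : cost q d n = cst q (d + 1) n := by
  unfold cost cst
  congr 1
  ext x
  simp

theorem cst_zero_left (q n : ℕ) : cst q 0 n = 0 := by simp [cst]

theorem cst_zero_right (q t : ℕ) : cst q t 0 = 0 := by simp [cst]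

/-- splitting by the last digit -/
theorem sum_split (q : ℕ) (hq : 1 ≤ q) (f : ℕ → ℕ) (n : ℕ) :
    ∑ x ∈ range n, f x = ∑ j ∈ range q, ∑ x ∈ range ((n + q - 1 - j) / q), f (q * x + j) := by
  induction n with
  | zero =>
    rw [sum_range_zero]
    symm
    apply sum_eq_zero
    intro j hj
    rw [mem_range] at hj
    have : (0 + q - 1 - j) / q = 0 := Nat.div_eq_of_lt (by omega)
    rw [this]; simp
  | succ n ih =>
    rw [sum_range_succ, ih]
    have hjn : n % q ∈ range q := mem_range.2 (Nat.mod_lt _ hq)
    rw [← add_sum_erase _ _ hjn, ← add_sum_erase (range q) (fun j => ∑ x ∈ range ((n + 1 + q - 1 - j) / q), f (q * x + j)) hjn]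
    have hdm := Nat.div_add_mod n q
    have hlt : n % q < q := Nat.mod_lt _ hq
    have e1 : (n + q - 1 - n % q) / q = n / q := by
      have : n + q - 1 - n % q = q * (n / q) + (q - 1) := by omega
      rw [this, Nat.mul_add_div hq, Nat.div_eq_of_lt (show q - 1 < q by omega)]; simp
    have e2 : (n + 1 + q - 1 - n % q) / q = n / q + 1 := by
      have : n + 1 + q - 1 - n % q = q * (n / q) + q := by omega
      rw [this, Nat.mul_add_div hq, Nat.div_self hq]
    rw [e1, e2, sum_range_succ, hdm]
    have e3 : ∑ j ∈ (range q).erase (n % q), ∑ x ∈ range ((n + q - 1 - j) / q), f (q * x + j)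
        = ∑ j ∈ (range q).erase (n % q), ∑ x ∈ range ((n + 1 + q - 1 - j) / q), f (q * x + j) := by
      apply sum_congr rfl
      intro j hj
      rw [mem_erase, mem_range] at hj
      have : (n + q - 1 - j) / q = (n + 1 + q - 1 - j) / q := by
        rcases lt_or_gt_of_ne hj.1 with h | h
        · have a1 : n + q - 1 - j = q * (n / q) + q + (n % q - 1 - j) := by omega
          have a2 : n + 1 + q - 1 - j = q * (n / q) + q + (n % q - j) := by omega
          rw [a1, a2, show q * (n / q) + q = q * (n / q + 1) by ring, Nat.mul_add_div hq, Nat.mul_add_div hq,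
            Nat.div_eq_of_lt (show n % q - 1 - j < q by omega), Nat.div_eq_of_lt (show n % q - j < q by omega)]
        · have a1 : n + q - 1 - j = q * (n / q) + (n % q + q - 1 - j) := by omega
          have a2 : n + 1 + q - 1 - j = q * (n / q) + (n % q + q - j) := by omega
          rw [a1, a2, Nat.mul_add_div hq, Nat.mul_add_div hq,
            Nat.div_eq_of_lt (show n % q + q - 1 - j < q by omega), Nat.div_eq_of_lt (show n % q + q - j < q by omega)]
      rw [this]
    rw [e3]
    ring

theorem cst_split (q : ℕ) (hq : 2 ≤ q) (t n : ℕ) :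
    cst q t n = ∑ j ∈ range q, cst q (t - j) ((n + q - 1 - j) / q) := by
  unfold cst
  simp_rw [card_filter]
  rw [sum_split q (by omega)]
  apply sum_congr rfl
  intro j hj
  rw [mem_range] at hj
  apply sum_congr rfl
  intro x _
  rw [ds_mul_add q hq _ _ hj]
  congr 1
  apply propext
  omega

theorem n_split (q : ℕ) (hq : 1 ≤ q) (n : ℕ) :
    n = ∑ j ∈ range q, ((n + q - 1 - j) / q) := by
  have := sum_split q hq (fun _ => 1) n
  simpa using this



/-! ### the planar lemma -/

/-- first coordinates of the cells of `L` on the antidiagonal `e` -/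
def lev (L : Finset (ℕ × ℕ)) (e : ℕ) : Finset ℕ := (range (e + 1)).filter (fun u => (u, e - u) ∈ L)

theorem mem_lev {L : Finset (ℕ × ℕ)} {e u : ℕ} : u ∈ lev L e ↔ u ≤ e ∧ (u, e - u) ∈ L := by
  simp [lev]

theorem card_lt_eq_sum_lev (L : Finset (ℕ × ℕ)) (τ : ℕ) :
    (L.filter (fun p => p.1 + p.2 < τ)).card = ∑ e ∈ range τ, (lev L e).card := by
  rw [card_eq_sum_card_fiberwise (f := fun p : ℕ × ℕ => p.1 + p.2) (t := range τ)]
  · apply sum_congr rfl
    intro e he
    rw [mem_range] at he
    apply card_bij (fun p _ => p.1)
    · intro p hp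
      simp only [mem_filter] at hp
      rw [mem_lev]
      refine ⟨by omega, ?_⟩
      have : (p.1, e - p.1) = p := by
        ext <;> simp; omega
      rw [this]; exact hp.1.1
    · intro p hp p' hp' h
      simp only [mem_filter] at hp hp'
      ext
      · exact h
      · omega
    · intro u hu
      rw [mem_lev] at hu
      refine ⟨(u, e - u), ?_, rfl⟩
      simp only [mem_filter]
      refine ⟨⟨hu.2, by omega⟩, by omega⟩
  · intro p hp
    rw [mem_coe, mem_filter] at hp
    rw [mem_coe, mem_range]
    exact hp.2

/-- a level which is not full dominates the later ones -/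
theorem lev_down (q : ℕ) (L : Finset (ℕ × ℕ)) (hbox : ∀ p ∈ L, p.1 < q ∧ p.2 < q)
    (hdown : ∀ p ∈ L, ∀ p', p' ≤ p → p' ∈ L) (a b k : ℕ) (hab : (a, b) ∉ L)
    (hne : (lev L (a + b + k)).Nonempty) :
    (lev L (a + b + k)).card + min k (a + b + k + 1 - q) ≤ (lev L (a + b)).card := by
  classical
  set V := lev L (a + b + k) with hV
  set X := V.filter (fun u => u < a) with hX
  set Y := V.filter (fun u => ¬ u < a) with hY
  have hcard : V.card = X.card + Y.card := (card_filter_add_card_filter_not _).symm
  have hVmem : ∀ u ∈ V, u ≤ a + b + k ∧ (u, a + b + k - u) ∈ L := fun u hu => mem_lev.1 hu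
  have hVq : ∀ u ∈ V, u < q ∧ a + b + k - u < q := fun u hu => hbox _ (hVmem u hu).2
  have hYmem : ∀ u ∈ Y, a + k < u := by
    intro u hu
    rw [hY, mem_filter] at hu
    by_contra hcon
    apply hab
    apply hdown _ (hVmem u hu.1).2
    rw [Prod.mk_le_mk]
    have := (hVmem u hu.1).1
    constructor <;> omega
  have hXsub : X ⊆ lev L (a + b) := by
    intro u hu
    rw [hX, mem_filter] at hu
    rw [mem_lev]
    refine ⟨by omega, hdown _ (hVmem u hu.1).2 _ ?_⟩
    rw [Prod.mk_le_mk]
    constructor <;> omega
  set Y' := Y.image (fun u => u - k) with hY'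
  have hY'card : Y'.card = Y.card := by
    apply card_image_of_injOn
    intro u hu v hv h
    have h1 := hYmem u hu
    have h2 := hYmem v hv
    simp only at h
    omega
  have hY'sub : Y' ⊆ lev L (a + b) := by
    intro v hv
    rw [hY', mem_image] at hv
    obtain ⟨u, hu, rfl⟩ := hv
    have h1 := hYmem u hu
    have hu' : u ∈ V := (mem_filter.1 hu).1
    have h2 := hVmem u hu'
    rw [mem_lev]
    refine ⟨by omega, hdown _ h2.2 _ ?_⟩
    rw [Prod.mk_le_mk]
    constructor <;> omega
  have hY'gt : ∀ v ∈ Y', a < v := by
    intro v hv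
    rw [hY', mem_image] at hv
    obtain ⟨u, hu, rfl⟩ := hv
    have h1 := hYmem u hu
    omega
  have hXlt : ∀ v ∈ X, v < a := fun v hv => (mem_filter.1 hv).2
  have hdXY : Disjoint X Y' := by
    rw [disjoint_left]
    intro v h1 h2
    have := hXlt v h1
    have := hY'gt v h2
    omega
  -- the extra cells
  suffices hE : ∃ E : Finset ℕ, E ⊆ lev L (a + b) ∧ Disjoint X E ∧ Disjoint Y' E ∧
      min k (a + b + k + 1 - q) ≤ E.card by
    obtain ⟨E, hE1, hE2, hE3, hE4⟩ := hE
    have hsub : (X ∪ Y') ∪ E ⊆ lev L (a + b) := union_subset (union_subset hXsub hY'sub) hE1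
    have hc := card_le_card hsub
    rw [card_union_of_disjoint, card_union_of_disjoint hdXY, hY'card] at hc
    · omega
    · rw [disjoint_union_left]; exact ⟨hE2, hE3⟩
  by_cases hXne : X.Nonempty
  · set u0 := X.min' hXne with hu0
    have hu0X : u0 ∈ X := min'_mem _ _
    have hu0V : u0 ∈ V := (mem_filter.1 hu0X).1
    have hu0a : u0 < a := hXlt _ hu0X
    have h1 := hVmem u0 hu0V
    have h2 := hVq u0 hu0V
    refine ⟨Ico (u0 - min k u0) u0, ?_, ?_, ?_, ?_⟩
    · intro v hv
      rw [mem_Ico] at hv
      rw [mem_lev]
      refine ⟨by omega, hdown _ h1.2 _ ?_⟩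
      rw [Prod.mk_le_mk]
      constructor <;> omega
    · rw [disjoint_left]
      intro v hv1 hv2
      have : u0 ≤ v := min'_le _ _ hv1
      rw [mem_Ico] at hv2
      omega
    · rw [disjoint_left]
      intro v hv1 hv2
      have := hY'gt v hv1
      rw [mem_Ico] at hv2
      omega
    · rw [Nat.card_Ico]; omega
  · rw [not_nonempty_iff_eq_empty] at hXne
    have hYne : Y.Nonempty := by
      rw [← card_pos]
      have h3 : 0 < V.card := card_pos.2 hne
      rw [hcard, hXne] at h3
      simpa using h3
    set u1 := Y.max' hYne with hu1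
    have hu1Y : u1 ∈ Y := max'_mem _ _
    have hu1V : u1 ∈ V := (mem_filter.1 hu1Y).1
    have h0 := hYmem u1 hu1Y
    have h1 := hVmem u1 hu1V
    have h2 := hVq u1 hu1V
    refine ⟨Ioc (u1 - k) (u1 - k + min k (a + b + k - u1)), ?_, ?_, ?_, ?_⟩
    · intro v hv
      rw [mem_Ioc] at hv
      rw [mem_lev]
      refine ⟨by omega, hdown _ h1.2 _ ?_⟩
      rw [Prod.mk_le_mk]
      constructor <;> omega
    · rw [hXne]; exact disjoint_empty_left _
    · rw [disjoint_left]
      intro v hv1 hv2
      rw [hY', mem_image] at hv1
      obtain ⟨u, hu, rfl⟩ := hv1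
      have h3 : u ≤ u1 := le_max' _ _ hu
      have h4 := hYmem u hu
      rw [mem_Ioc] at hv2
      omega
    · rw [Nat.card_Ioc]; omega

/-- the row-lexicographic set of size `n` in the square of side `q` -/
def rowLex (q n : ℕ) : Finset (ℕ × ℕ) := (range q ×ˢ range q).filter (fun p => q * p.1 + p.2 < n)

theorem mem_rowLex {q n : ℕ} {p : ℕ × ℕ} : p ∈ rowLex q n ↔ (p.1 < q ∧ p.2 < q) ∧ q * p.1 + p.2 < n := by
  simp [rowLex]

theorem card_rowLex (q n : ℕ) (hn : n ≤ q * q) : (rowLex q n).card = n := by
  symm
  rw [← card_range n, card_range]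
  conv_lhs => rw [← card_range n]
  apply card_nbij' (fun y => (y / q, y % q)) (fun p => q * p.1 + p.2)
  · intro y hy
    simp only [coe_range, Set.mem_Iio] at hy
    have hq : 0 < q := by
      by_contra h0
      have : q = 0 := by omega
      subst this
      simp at hn
      omega
    show (y / q, y % q) ∈ rowLex q n
    rw [mem_rowLex]
    refine ⟨⟨?_, Nat.mod_lt _ hq⟩, ?_⟩
    · show y / q < q
      exact (Nat.div_lt_iff_lt_mul hq).2 (by omega)
    · show q * (y / q) + y % q < n
      rw [Nat.div_add_mod]; exact hy
  · intro p hp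
    have hp' : p ∈ rowLex q n := hp
    rw [mem_rowLex] at hp'
    show q * p.1 + p.2 ∈ (range n : Finset ℕ)
    rw [mem_range]
    exact hp'.2
  · intro y _
    exact Nat.div_add_mod y q
  · intro p hp
    have hp' : p ∈ rowLex q n := hp
    rw [mem_rowLex] at hp'
    have hq : 0 < q := by omega
    show ((q * p.1 + p.2) / q, (q * p.1 + p.2) % q) = p
    rw [Nat.mul_add_div hq, Nat.div_eq_of_lt hp'.1.2, Nat.mul_add_mod, Nat.mod_eq_of_lt hp'.1.2]
    simp

theorem lev_rowLex (q n e e' : ℕ) (hee : e < e') :
    (lev (rowLex q n) e).card ≤ (lev (rowLex q n) e').card + min (e' - e) (e' + 1 - q) + 1 := by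
  have hsub : lev (rowLex q n) e ⊆ (lev (rowLex q n) e' ∪ Ico (e + 1 - q) (e' + 1 - q)) ∪ {n / q} := by
    intro u hu
    rw [mem_lev, mem_rowLex] at hu
    obtain ⟨h1, ⟨h2, h3⟩, h4⟩ := hu
    simp only at h2 h3 h4
    rw [mem_union, mem_union, mem_Ico, mem_lev, mem_rowLex, mem_singleton]
    by_cases h5 : u < e' + 1 - q
    · left; right; omega
    · by_cases h6 : q * u + (e' - u) < n
      · left; left
        refine ⟨by omega, ⟨h2, by simp only; omega⟩, h6⟩
      · right
        have hq : 0 < q := by omega
        symm
        rw [Nat.div_eq_iff hq]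
        have : u * q = q * u := mul_comm _ _
        rw [this]
        omega
  have h := card_le_card hsub
  have h1 := card_union_le (lev (rowLex q n) e' ∪ Ico (e + 1 - q) (e' + 1 - q)) {n / q}
  have h2 := card_union_le (lev (rowLex q n) e') (Ico (e + 1 - q) (e' + 1 - q))
  rw [Nat.card_Ico] at h2
  rw [card_singleton] at h1
  omega

theorem planar (q : ℕ) (L : Finset (ℕ × ℕ)) (hbox : ∀ p ∈ L, p.1 < q ∧ p.2 < q)
    (hdown : ∀ p ∈ L, ∀ p', p' ≤ p → p' ∈ L) (τ : ℕ) :
    ((rowLex q L.card).filter (fun p => p.1 + p.2 < τ)).card ≤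
      (L.filter (fun p => p.1 + p.2 < τ)).card := by
  set n := L.card with hn
  have hnq : n ≤ q * q := by
    have : L ⊆ range q ×ˢ range q := by
      intro p hp
      have := hbox p hp
      simp [this]
    have := card_le_card this
    simpa using this
  have htot : ∀ (M : Finset (ℕ × ℕ)), (∀ p ∈ M, p.1 < q ∧ p.2 < q) →
      ∑ e ∈ range (τ + 2 * q), (lev M e).card = M.card := by
    intro M hM
    rw [← card_lt_eq_sum_lev]
    congr 1
    apply filter_true_of_mem
    intro p hp
    have := hM p hp
    omega
  have hR : ∀ p ∈ rowLex q n, p.1 < q ∧ p.2 < q := fun p hp => (mem_rowLex.1 hp).1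
  have e1 := htot L hbox
  have e2 := htot (rowLex q n) hR
  rw [card_rowLex q n hnq] at e2
  rw [sum_range_add] at e1 e2
  rw [card_lt_eq_sum_lev, card_lt_eq_sum_lev]
  by_contra hcon
  push Not at hcon
  obtain ⟨e, he, hlt⟩ := exists_lt_of_sum_lt hcon
  have hcon2 : ∑ i ∈ range (2 * q), (lev (rowLex q n) (τ + i)).card < ∑ i ∈ range (2 * q), (lev L (τ + i)).card := by
    omega
  obtain ⟨i, hi, hlt2⟩ := exists_lt_of_sum_lt hcon2
  rw [mem_range] at he
  -- a missing cell
  have hmiss : ∃ u ∈ lev (rowLex q n) e, u ∉ lev L e := by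
    by_contra hall
    push Not at hall
    have := card_le_card (show lev (rowLex q n) e ⊆ lev L e from hall)
    omega
  obtain ⟨u, hu1, hu2⟩ := hmiss
  have hue : u ≤ e := (mem_lev.1 hu1).1
  have hnot : (u, e - u) ∉ L := by
    intro h
    exact hu2 (mem_lev.2 ⟨hue, h⟩)
  have hne : (lev L (u + (e - u) + (τ + i - e))).Nonempty := by
    rw [← card_pos]
    have : u + (e - u) + (τ + i - e) = τ + i := by omega
    rw [this]
    omega
  have h1 := lev_down q L hbox hdown u (e - u) (τ + i - e) hnot hne
  have h2 := lev_rowLex q n e (τ + i) (by omega)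
  rw [show u + (e - u) + (τ + i - e) = τ + i by omega, show u + (e - u) = e by omega] at h1
  omega


/-! ### the step of the numeric inequality -/

theorem cst_eq_sum (q t n : ℕ) : cst q t n = ∑ x ∈ range n, if ds q x < t then 1 else 0 := by
  unfold cst; rw [card_filter]

/-- (GL) in the form needed: columns `M 0 ≥ M 1 ≥ ... ≥ M (q-1)`, `M 0 ≤ M (q-1) + q` -/
theorem gl (q : ℕ) (hq : 2 ≤ q) (t : ℕ) (M : ℕ → ℕ) (hM : ∀ i j, i ≤ j → j < q → M j ≤ M i)
    (hM2 : M 0 ≤ M (q - 1) + q) :
    cst q t (∑ j ∈ range q, M j) ≤ ∑ j ∈ range q, cst q (t - j) (M j) := by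
  classical
  set z := M (q - 1) with hz
  have hzle : ∀ j, j < q → z ≤ M j := fun j hj => hM j (q - 1) (by omega) (by omega)
  have hMle : ∀ j, j < q → M j ≤ z + q := fun j hj => le_trans (hM 0 j (by omega) hj) hM2
  set L : Finset (ℕ × ℕ) := (range q ×ˢ range q).filter (fun p => z + p.1 < M p.2) with hL
  have hLmem : ∀ p, p ∈ L ↔ (p.1 < q ∧ p.2 < q) ∧ z + p.1 < M p.2 := by
    intro p; simp [hL]
  have hLbox : ∀ p ∈ L, p.1 < q ∧ p.2 < q := fun p hp => ((hLmem p).1 hp).1
  have hLdown : ∀ p ∈ L, ∀ p', p' ≤ p → p' ∈ L := by
    intro p hp p' hp'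
    rw [hLmem] at hp ⊢
    have h1 : p'.1 ≤ p.1 := hp'.1
    have h2 : p'.2 ≤ p.2 := hp'.2
    have h3 := hM p'.2 p.2 h2 hp.1.2
    refine ⟨⟨by omega, by omega⟩, by omega⟩
  set n := L.card with hn
  -- the number of cells
  have hcol : ∀ (g : ℕ → ℕ → ℕ), ∑ j ∈ range q, ∑ u ∈ range (M j - z), g u j = ∑ p ∈ L, g p.1 p.2 := by
    intro g
    rw [hL, sum_filter, sum_product_right]
    apply sum_congr rfl
    intro j hj
    rw [mem_range] at hj
    rw [← sum_filter]
    apply sum_congr _ (fun _ _ => rfl)
    ext u
    simp only [mem_range, mem_filter]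
    have := hMle j hj
    omega
  have hsumM : ∑ j ∈ range q, M j = q * z + n := by
    have h1 : ∑ j ∈ range q, M j = ∑ j ∈ range q, (z + (M j - z)) := by
      apply sum_congr rfl
      intro j hj
      rw [mem_range] at hj
      have := hzle j hj
      omega
    rw [h1, sum_add_distrib]
    have h2 := hcol (fun _ _ => 1)
    simp only [sum_const, card_range, smul_eq_mul, mul_one] at h2
    rw [h2]
    simp [hn]
  -- the two sides
  have hR : ∑ j ∈ range q, cst q (t - j) (M j) = ∑ j ∈ range q, cst q (t - j) z +
      (L.filter (fun p => ds q (z + p.1) + p.2 < t)).card := by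
    have h1 : ∀ j ∈ range q, cst q (t - j) (M j) = cst q (t - j) z +
        ∑ u ∈ range (M j - z), if ds q (z + u) + j < t then 1 else 0 := by
      intro j hj
      rw [mem_range] at hj
      have h2 : M j = z + (M j - z) := by have := hzle j hj; omega
      conv_lhs => rw [h2]
      rw [cst_eq_sum, sum_range_add, ← cst_eq_sum]
      congr 1
      apply sum_congr rfl
      intro u _
      congr 1
      apply propext
      omega
    rw [sum_congr rfl h1, sum_add_distrib]
    congr 1
    rw [hcol (fun u j => if ds q (z + u) + j < t then 1 else 0), card_filter]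
  have hnq : n ≤ q * q := by
    have : L ⊆ range q ×ˢ range q := filter_subset _ _
    have := card_le_card this
    simpa using this
  have hLs : cst q t (∑ j ∈ range q, M j) = ∑ j ∈ range q, cst q (t - j) z +
      ((rowLex q n).filter (fun p => ds q (z + p.1) + p.2 < t)).card := by
    rw [hsumM, cst_split q hq]
    have h1 : ∀ j ∈ range q, cst q (t - j) ((q * z + n + q - 1 - j) / q) = cst q (t - j) z +
        ∑ u ∈ range q, if q * u + j < n then (if ds q (z + u) + j < t then 1 else 0) else 0 := by
      intro j hj
      rw [mem_range] at hj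
      have h2 : (q * z + n + q - 1 - j) / q = z + (n + q - 1 - j) / q := by
        have : q * z + n + q - 1 - j = q * z + (n + q - 1 - j) := by omega
        rw [this, Nat.mul_add_div (by omega)]
      rw [h2, cst_eq_sum, sum_range_add, ← cst_eq_sum]
      congr 1
      have h3 : (range q).filter (fun u => q * u + j < n) = range ((n + q - 1 - j) / q) := by
        ext u
        simp only [mem_filter, mem_range]
        rw [Nat.lt_iff_add_one_le (m := u) (n := (n + q - 1 - j) / q), Nat.le_div_iff_mul_le (by omega)]
        have h4 : (u + 1) * q = q * u + q := by ring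
        rw [h4]
        constructor
        · intro h; omega
        · intro h
          refine ⟨?_, by omega⟩
          by_contra h5
          push Not at h5
          have h6 : q * q ≤ q * u := Nat.mul_le_mul_left q h5
          omega
      rw [← sum_filter (fun u => q * u + j < n), h3]
      apply sum_congr rfl
      intro u _
      congr 1
      apply propext
      omega
    rw [sum_congr rfl h1, sum_add_distrib]
    congr 1
    rw [card_filter, rowLex, sum_filter, sum_product_right]
  rw [hLs, hR]
  apply Nat.add_le_add_left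
  -- reduction to the planar lemma
  set w := n / q with hw
  set τ := t + w - ds q (z + w) with hτ
  have hpl := planar q L hLbox hLdown τ
  rw [← hn] at hpl
  have hcardR := card_rowLex q n hnq
  have A1 : ∀ (P : ℕ × ℕ → Prop) [DecidablePred P] (A B : Finset (ℕ × ℕ)),
      (A.filter P).card = ((A ∩ B).filter P).card + ((A \ B).filter P).card := by
    intro P _ A B
    rw [← card_union_of_disjoint]
    · congr 1
      ext x
      simp only [mem_filter, mem_union, mem_inter, mem_sdiff]
      tauto
    · rw [disjoint_left]
      intro x hx hx'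
      simp only [mem_filter, mem_inter, mem_sdiff] at hx hx'
      exact hx'.1.2 hx.1.2
  rw [A1 _ (rowLex q n) L, A1 _ L (rowLex q n), inter_comm L] at hpl ⊢
  apply Nat.add_le_add_left
  have hpl2 := Nat.le_of_add_le_add_left hpl
  refine le_trans (card_le_card ?_) (le_trans hpl2 (card_le_card ?_))
  · intro p hp
    rw [mem_filter, mem_sdiff, mem_rowLex] at hp ⊢
    obtain ⟨⟨⟨hp1, hp2⟩, hp3⟩, hp4⟩ := hp
    refine ⟨⟨⟨hp1, hp2⟩, hp3⟩, ?_⟩
    have h1 : p.1 ≤ w := by
      rw [hw, Nat.le_div_iff_mul_le (by omega), mul_comm]; omega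
    have h2 := ds_add_le q hq (z + p.1) (w - p.1)
    rw [show z + p.1 + (w - p.1) = z + w by omega] at h2
    omega
  · intro p hp
    rw [mem_filter, mem_sdiff, mem_rowLex] at hp ⊢
    obtain ⟨⟨hp1, hp2⟩, hp3⟩ := hp
    refine ⟨⟨hp1, hp2⟩, ?_⟩
    have hb := hLbox p hp1
    have h1 : w ≤ p.1 := by
      by_contra h
      push Not at h
      apply hp2
      refine ⟨hb, ?_⟩
      have h3 : q * (p.1 + 1) ≤ q * w := Nat.mul_le_mul_left q h
      have h4 : q * w ≤ n := Nat.mul_div_le n q
      have h5 : q * (p.1 + 1) = q * p.1 + q := by ring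
      omega
    have h2 := ds_add_le q hq (z + w) (p.1 - w)
    rw [show z + w + (p.1 - w) = z + p.1 by omega] at h2
    omega

/-- (N) the numeric inequality -/
theorem numeric (q : ℕ) (hq : 2 ≤ q) : ∀ (B : ℕ) (n : ℕ → ℕ), Antitone n → n 0 ≤ B → ∀ t, t ≤ q →
    cst q t (∑ i ∈ range q, n i) ≤ ∑ i ∈ range q, cst q (t - i) (n i) := by
  intro B
  induction B using Nat.strong_induction_on with
  | _ B ih =>
    intro n hn hB t ht
    by_cases h1 : n 0 ≤ 1
    · -- base case
      set S := (range q).filter (fun i => 0 < n i) with hS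
      have hni : ∀ i, n i ≤ 1 := fun i => le_trans (hn (Nat.zero_le i)) h1
      have hsum : ∑ i ∈ range q, n i = S.card := by
        rw [hS, card_filter]
        apply sum_congr rfl
        intro i _
        have := hni i
        split_ifs <;> omega
      have hR : ∑ i ∈ range q, cst q (t - i) (n i) = (S.filter (fun i => i < t)).card := by
        rw [hS, filter_filter, card_filter]
        apply sum_congr rfl
        intro i _
        have h2 := hni i
        by_cases h3 : 0 < n i
        · have h4 : n i = 1 := by omega
          rw [h4, cst_eq_sum, sum_range_one, ds_zero]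
          congr 1
          apply propext
          omega
        · have h4 : n i = 0 := by omega
          rw [h4, cst_zero_right, if_neg]
          omega
      rw [hsum, hR]
      unfold cst
      apply card_le_card
      intro x hx
      rw [mem_filter, mem_range] at hx
      have hScard : S.card ≤ q := by
        have := card_filter_le (range q) (fun i => 0 < n i)
        simpa using this
      have hxq : x < q := by omega
      rw [ds_of_lt q hq x hxq] at hx
      rw [mem_filter]
      refine ⟨?_, hx.2⟩
      by_contra hxS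
      have hsub : S ⊆ range x := by
        intro i hi
        rw [mem_range]
        by_contra hix
        push Not at hix
        apply hxS
        rw [hS, mem_filter, mem_range] at hi ⊢
        exact ⟨hxq, lt_of_lt_of_le hi.2 (hn hix)⟩
      have := card_le_card hsub
      rw [card_range] at this
      omega
    · push Not at h1
      set N : ℕ → ℕ → ℕ := fun j i => (n i + q - 1 - j) / q with hN
      set M : ℕ → ℕ := fun j => ∑ i ∈ range q, N j i with hMdef
      have hNanti : ∀ j, Antitone (N j) := by
        intro j i i' hi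
        have := hn hi
        exact Nat.div_le_div_right (by omega)
      have hN0 : ∀ j, N j 0 < n 0 := by
        intro j
        show (n 0 + q - 1 - j) / q < n 0
        rw [Nat.div_lt_iff_lt_mul (by omega)]
        have : n 0 + q ≤ n 0 * q := by
          obtain ⟨a, ha⟩ := Nat.exists_eq_add_of_le h1
          obtain ⟨b, hb⟩ := Nat.exists_eq_add_of_le hq
          rw [ha, hb]
          nlinarith [Nat.zero_le (a * b)]
        omega
      have hsumn : ∑ i ∈ range q, n i = ∑ j ∈ range q, M j := by
        rw [hMdef]
        simp only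
        rw [sum_comm]
        apply sum_congr rfl
        intro i _
        exact n_split q (by omega) (n i)
      have hRsplit : ∑ i ∈ range q, cst q (t - i) (n i) =
          ∑ j ∈ range q, ∑ i ∈ range q, cst q (t - j - i) (N j i) := by
        rw [sum_comm]
        apply sum_congr rfl
        intro i _
        rw [cst_split q hq]
        apply sum_congr rfl
        intro j _
        rw [Nat.sub_right_comm]
      rw [hRsplit, hsumn]
      refine le_trans (gl q hq t M ?_ ?_) (sum_le_sum ?_)
      · intro i j hij _
        apply sum_le_sum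
        intro l _
        exact Nat.div_le_div_right (by omega)
      · have h2 : ∀ i ∈ range q, N 0 i ≤ N (q - 1) i + 1 := by
          intro i _
          show (n i + q - 1 - 0) / q ≤ (n i + q - 1 - (q - 1)) / q + 1
          have : (n i + q - 1 - (q - 1)) / q + 1 = (n i + q) / q := by
            rw [Nat.add_div_right _ (by omega)]
            congr 2
            omega
          rw [this]
          exact Nat.div_le_div_right (by omega)
        have h3 := sum_le_sum h2
        rw [sum_add_distrib] at h3
        simpa using h3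
      · intro j _
        exact ih (n 0 - 1) (by omega) (N j) (hNanti j) (by have := hN0 j; omega) (t - j) (by omega)

/-! ### down-sets in boxes -/

theorem downset_cst (q : ℕ) (hq : 2 ≤ q) : ∀ (m : ℕ) (G : Finset (Fin m → ℕ))
    (_ : ∀ a ∈ G, ∀ b, b ≤ a → b ∈ G) (_ : ∀ a ∈ G, ∀ i, a i < q) (t : ℕ) (_ : t ≤ q),
    cst q t G.card ≤ (G.filter (fun a => ∑ i, a i < t)).card := by
  classical
  intro m
  induction m with
  | zero =>
    intro G hG hbox t ht
    rcases G.eq_empty_or_nonempty with rfl | ⟨a, ha⟩
    · simp [cst]
    · have hGa : G = {a} := by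
        ext b
        rw [mem_singleton]
        constructor
        · intro _; exact Subsingleton.elim _ _
        · rintro rfl; exact ha
      rw [hGa, card_singleton, cst_eq_sum, sum_range_one, ds_zero, card_filter, sum_singleton]
      simp
  | succ m ih =>
    intro G hG hbox t ht
    set S : ℕ → Finset (Fin m → ℕ) := fun i => (G.filter (fun a => a 0 = i)).image Fin.tail with hS
    have hSmem : ∀ i b, b ∈ S i ↔ (Fin.cons i b : Fin (m + 1) → ℕ) ∈ G := by
      intro i b
      rw [hS]
      simp only [mem_image, mem_filter]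
      constructor
      · rintro ⟨a, ⟨ha, hai⟩, rfl⟩
        rw [← hai, Fin.cons_self_tail]
        exact ha
      · intro h
        exact ⟨_, ⟨h, by simp⟩, by simp⟩
    have hScard : ∀ i, (S i).card = (G.filter (fun a => a 0 = i)).card := by
      intro i
      apply card_image_of_injOn
      intro a ha b hb hab
      rw [mem_coe, mem_filter] at ha hb
      have hab' : Fin.tail a = Fin.tail b := hab
      rw [← Fin.cons_self_tail a, ← Fin.cons_self_tail b, ha.2, hb.2, hab']
    have hanti : Antitone (fun i => (S i).card) := by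
      intro i j hij
      apply card_le_card
      intro b hb
      rw [hSmem] at hb ⊢
      apply hG _ hb
      intro l
      refine Fin.cases ?_ (fun l' => ?_) l
      · simpa using hij
      · simp
    have hGcard : G.card = ∑ i ∈ range q, (S i).card := by
      rw [card_eq_sum_card_fiberwise (f := fun a : Fin (m + 1) → ℕ => a 0) (t := range q)]
      · apply sum_congr rfl
        intro i _
        rw [hScard]
      · intro a ha
        rw [mem_coe] at ha
        rw [mem_coe, mem_range]
        exact hbox a ha 0
    have hfil : (G.filter (fun a => ∑ i, a i < t)).card =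
        ∑ i ∈ range q, ((S i).filter (fun b => ∑ l, b l < t - i)).card := by
      rw [card_eq_sum_card_fiberwise (f := fun a : Fin (m + 1) → ℕ => a 0) (t := range q)]
      · apply sum_congr rfl
        intro i _
        symm
        apply card_bij (fun b _ => (Fin.cons i b : Fin (m + 1) → ℕ))
        · intro b hb
          simp only [mem_filter] at hb ⊢
          rw [hSmem] at hb
          refine ⟨⟨hb.1, ?_⟩, by simp⟩
          rw [Fin.sum_univ_succ]
          simp only [Fin.cons_zero, Fin.cons_succ]
          omega
        · intro b _ b' _ h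
          exact Fin.cons_right_injective (α := fun _ => ℕ) i h
        · intro a ha
          simp only [mem_filter] at ha
          refine ⟨Fin.tail a, ?_, ?_⟩
          · simp only [mem_filter]
            rw [hSmem]
            have h1 : (Fin.cons i (Fin.tail a) : Fin (m + 1) → ℕ) = a := by
              rw [← ha.2, Fin.cons_self_tail]
            rw [h1]
            refine ⟨ha.1.1, ?_⟩
            have h2 := ha.1.2
            rw [Fin.sum_univ_succ] at h2
            have h3 : ∑ l, Fin.tail a l = ∑ l : Fin m, a l.succ := rfl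
            rw [h3]
            omega
          · rw [← ha.2, Fin.cons_self_tail]
      · intro a ha
        rw [mem_coe, mem_filter] at ha
        rw [mem_coe, mem_range]
        exact hbox a ha.1 0
    rw [hGcard, hfil]
    refine le_trans (numeric q hq _ (fun i => (S i).card) hanti le_rfl t ht) (sum_le_sum ?_)
    intro i _
    apply ih (S i)
    · intro a ha b hb
      rw [hSmem] at ha ⊢
      apply hG _ ha
      intro l
      refine Fin.cases ?_ (fun l' => ?_) l
      · simp
      · simpa using hb l'
    · intro a ha l
      rw [hSmem] at ha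
      have := hbox _ ha l.succ
      simpa using this
    · omega

/-- module COMB (W) -/
theorem downset_cost (q : ℕ) (d : ℕ) (hd : d < q) (m : ℕ)
    (G : Finset (Fin m → ℕ)) (hG : ∀ a ∈ G, ∀ b, b ≤ a → b ∈ G) (hbox : ∀ a ∈ G, ∀ i, a i < q) :
    cost q d G.card ≤ (G.filter (fun a => ∑ i, a i ≤ d)).card := by
  rcases Nat.lt_or_ge q 2 with hq | hq
  · have hq1 : q = 1 := by omega
    have hd0 : d = 0 := by omega
    subst hd0
    have h1 : G.filter (fun a => ∑ i, a i ≤ 0) = G := by
      apply filter_true_of_mem
      intro a ha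
      rw [Nat.le_zero, sum_eq_zero_iff]
      intro i _
      have := hbox a ha i
      omega
    rw [h1]
    unfold cost
    refine le_trans (card_filter_le _ _) ?_
    simp
  · rw [cost_eq_cst]
    have := downset_cst q hq m G hG hbox (d + 1) hd
    simpa [Nat.lt_succ_iff] using this

theorem hockey (k d : ℕ) : ∑ e ∈ range (d + 1), (k + e).choose e = (k + 1 + d).choose d := by
  induction d with
  | zero => simp
  | succ d ih =>
    rw [sum_range_succ, ih]
    have h1 : k + 1 + (d + 1) = (k + 1 + d) + 1 := by ring
    rw [h1, Nat.choose_succ_succ, show k + (d + 1) = k + 1 + d by ring]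

theorem cst_pow (q : ℕ) (hq : 2 ≤ q) (k : ℕ) : ∀ d, d < q → cst q (d + 1) (q ^ k) = (k + d).choose d := by
  induction k with
  | zero =>
    intro d hd
    rw [pow_zero, cst_eq_sum, sum_range_one, ds_zero]
    simp
  | succ k ih =>
    intro d hd
    rw [cst_split q hq]
    have h1 : ∀ j ∈ range q, cst q (d + 1 - j) ((q ^ (k + 1) + q - 1 - j) / q) =
        if j ≤ d then (k + (d - j)).choose (d - j) else 0 := by
      intro j hj
      rw [mem_range] at hj
      have h2 : (q ^ (k + 1) + q - 1 - j) / q = q ^ k := by
        have h3 : q ^ (k + 1) = q * q ^ k := by ring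
        have h4 : q ^ (k + 1) + q - 1 - j = q * q ^ k + (q - 1 - j) := by omega
        rw [h4, Nat.mul_add_div (by omega), Nat.div_eq_of_lt (show q - 1 - j < q by omega)]
        simp
      rw [h2]
      split_ifs with h5
      · rw [show d + 1 - j = (d - j) + 1 by omega]
        exact ih (d - j) (by omega)
      · rw [show d + 1 - j = 0 by omega, cst_zero_left]
    rw [sum_congr rfl h1, ← sum_filter]
    have h2 : (range q).filter (fun j => j ≤ d) = range (d + 1) := by
      ext j
      simp only [mem_filter, mem_range]
      omega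
    rw [h2]
    have h3 := sum_range_reflect (fun e => (k + e).choose e) (d + 1)
    rw [hockey k d] at h3
    exact h3

theorem cost_pow (q : ℕ) (d k : ℕ) (hd : d < q) : cost q d (q ^ k) = (k + d).choose d := by
  rcases Nat.lt_or_ge q 2 with hq | hq
  · have hq1 : q = 1 := by omega
    have hd0 : d = 0 := by omega
    subst hq1 hd0
    simp [cost, ds]
  · rw [cost_eq_cst]
    exact cst_pow q hq k d hd

end B04
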