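import Mathlib

/-!
# Separation of base-`q` digits in exponents
-/

set_option linter.unusedSectionVars false

open MvPolynomial

namespace B04

/-- uniqueness of base-`q` expansions, written with the powers `q ^ (m - k)`, `k < J ≤ m` -/
theorem digits_unique (q m J : ℕ) (hJ : J ≤ m) (x y : Fin J → ℕ) (hx : ∀ k, x k < q)
    (hy : ∀ k, y k < q)
    (h : ∑ k : Fin J, x k * q ^ (m - (k : ℕ)) = ∑ k : Fin J, y k * q ^ (m - (k : ℕ))) : x = y := by
  rcases Nat.eq_zero_or_pos J with h0 | hpos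
  · subst h0; funext k; exact k.elim0
  have hq : 0 < q := lt_of_le_of_lt (Nat.zero_le _) (hx ⟨0, hpos⟩)
  have e : ∀ z : Fin J → ℕ, ∑ k : Fin J, z k * q ^ (m - (k : ℕ))
      = q ^ (m - J + 1) * ∑ k : Fin J, z (Fin.rev k) * q ^ (k : ℕ) := by
    intro z
    rw [← Equiv.sum_comp Fin.revPerm, Finset.mul_sum]
    refine Finset.sum_congr rfl fun k _ => ?_
    simp only [Fin.revPerm_apply]
    have : m - ((Fin.rev k : Fin J) : ℕ) = (m - J + 1) + k := by
      rw [Fin.val_rev]
      have := k.2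
      omega
    rw [this, pow_add]
    ring
  rw [e, e] at h
  have h2 := Nat.eq_of_mul_eq_mul_left (pow_pos hq _) h
  have h3 : (finFunctionFinEquiv (fun k : Fin J => (⟨x (Fin.rev k), hx _⟩ : Fin q)))
      = finFunctionFinEquiv (fun k : Fin J => (⟨y (Fin.rev k), hy _⟩ : Fin q)) := by
    apply Fin.ext
    rw [finFunctionFinEquiv_apply, finFunctionFinEquiv_apply]
    exact h2
  have h4 := finFunctionFinEquiv.injective h3
  funext k
  have := congrFun h4 (Fin.rev k)
  simpa using this

variable {K : Type*} [Field K] {τ ρ : Type*} [Fintype τ] [Fintype ρ]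

/-- the exponent map `β ↦ (∑_k β_{k,s} Q_k)_s` -/
noncomputable def expo (Q : τ → ℕ) (β : (τ × ρ) →₀ ℕ) : ρ →₀ ℕ :=
  ∑ p : τ × ρ, Finsupp.single p.2 (β p * Q p.1)

theorem expo_apply (Q : τ → ℕ) (β : (τ × ρ) →₀ ℕ) (s : ρ) :
    expo Q β s = ∑ k, β (k, s) * Q k := by
  classical
  rw [expo, Finsupp.finsetSum_apply, Fintype.sum_prod_type]
  refine Finset.sum_congr rfl fun k _ => ?_
  rw [Finset.sum_eq_single s]
  · simp
  · intro b _ hb
    simp [hb]
  · intro h; exact absurd (Finset.mem_univ s) h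

theorem aeval_monomial_expo (Q : τ → ℕ) (β : (τ × ρ) →₀ ℕ) (r : K) :
    aeval (fun p : τ × ρ => (X p.2 : MvPolynomial ρ K) ^ Q p.1) (monomial β r)
      = monomial (expo Q β) r := by
  classical
  rw [aeval_monomial, algebraMap_eq, Finsupp.prod_fintype]
  · rw [expo]
    have : ∀ s : Finset (τ × ρ), C r * ∏ p ∈ s, ((X p.2 : MvPolynomial ρ K) ^ Q p.1) ^ β p
        = monomial (∑ p ∈ s, Finsupp.single p.2 (β p * Q p.1)) r := by
      intro s
      induction s using Finset.induction_on with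
      | empty => simp
      | insert p s hp ih =>
        rw [Finset.prod_insert hp, Finset.sum_insert hp, mul_left_comm, ih, ← pow_mul,
          mul_comm (Q p.1), X_pow_eq_monomial, monomial_mul, one_mul]
    exact this Finset.univ
  · intro p; simp

/-- a polynomial of small individual degrees is determined by its image under
`U_{k,s} ↦ X_s ^ Q_k` -/
theorem eq_zero_of_aeval_eq_zero (Q : τ → ℕ) (b : τ → ℕ)
    (hQ : ∀ x y : τ → ℕ, (∀ k, x k ≤ b k) → (∀ k, y k ≤ b k) →
      ∑ k, x k * Q k = ∑ k, y k * Q k → x = y)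
    (p : MvPolynomial (τ × ρ) K) (hp : ∀ k s, degreeOf (k, s) p ≤ b k)
    (h0 : aeval (fun p : τ × ρ => (X p.2 : MvPolynomial ρ K) ^ Q p.1) p = 0) : p = 0 := by
  classical
  by_contra hne
  obtain ⟨β0, hβ0⟩ : ∃ β, β ∈ p.support := by
    by_contra h
    push Not at h
    exact hne (support_eq_empty.mp (Finset.eq_empty_of_forall_notMem h))
  have hdeg : ∀ β ∈ p.support, ∀ k s, β (k, s) ≤ b k := by
    intro β hβ k s
    exact (le_degreeOf_of_mem_support (k, s) hβ).trans (hp k s)
  have h1 : coeff (expo Q β0) (aeval (fun p : τ × ρ => (X p.2 : MvPolynomial ρ K) ^ Q p.1) p)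
      = coeff β0 p := by
    conv_lhs => rw [p.as_sum, map_sum]
    simp_rw [aeval_monomial_expo]
    rw [coeff_sum, Finset.sum_eq_single β0]
    · simp
    · intro β hβ hne'
      rw [coeff_monomial, if_neg]
      intro he
      apply hne'
      ext ⟨k, s⟩
      have h2 : ∑ k, β (k, s) * Q k = ∑ k, β0 (k, s) * Q k := by
        rw [← expo_apply, ← expo_apply, he]
      have := hQ (fun k => β (k, s)) (fun k => β0 (k, s)) (fun k => hdeg β hβ k s)
        (fun k => hdeg β0 hβ0 k s) h2
      exact congrFun this k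
    · intro h; exact absurd hβ0 h
  rw [h0, coeff_zero] at h1
  exact (mem_support_iff.mp hβ0) h1.symm

/-- digit separation -/
theorem digit_sep {ι : Type*} [Fintype ι] (Q : τ → ℕ) (a : τ → ℕ)
    (hQ : ∀ x y : τ → ℕ, (∀ k, x k ≤ a k) → (∀ k, y k ≤ a k) →
      ∑ k, x k * Q k = ∑ k, y k * Q k → x = y)
    (κ : ι → K) (w : ι → ρ → K)
    (h : ∑ i, C (κ i) * ∏ k, (∑ s, (X s : MvPolynomial ρ K) ^ Q k * C (w i s)) ^ a k = 0)
    (μ : τ → ρ → K) : ∑ i, κ i * ∏ k, (∑ s, μ k s * w i s) ^ a k = 0 := by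
  classical
  set p : MvPolynomial (τ × ρ) K :=
    ∑ i, C (κ i) * ∏ k, (∑ s, (X (k, s) : MvPolynomial (τ × ρ) K) * C (w i s)) ^ a k with hpdef
  have hlin : ∀ i (k k' : τ) (s : ρ),
      degreeOf (k, s) (∑ s, (X (k', s) : MvPolynomial (τ × ρ) K) * C (w i s))
        ≤ if k' = k then 1 else 0 := by
    intro i k k' s
    refine (degreeOf_sum_le _ _ _).trans ?_
    apply Finset.sup_le
    intro t _
    refine (degreeOf_mul_le _ _ _).trans ?_
    rw [degreeOf_C, add_zero, degreeOf_X]
    split_ifs with h1 h2 h2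
    · exact le_rfl
    · exact absurd (congrArg Prod.fst h1).symm h2
    · exact Nat.zero_le _
    · exact le_rfl
  have hdeg : ∀ k s, degreeOf (k, s) p ≤ a k := by
    intro k s
    refine (degreeOf_sum_le _ _ _).trans ?_
    apply Finset.sup_le
    intro i _
    refine (degreeOf_mul_le _ _ _).trans ?_
    rw [degreeOf_C, zero_add]
    refine (degreeOf_prod_le _ _ _).trans ?_
    calc ∑ k', degreeOf (k, s) ((∑ s, (X (k', s) : MvPolynomial (τ × ρ) K) * C (w i s)) ^ a k')
        ≤ ∑ k', a k' * (if k' = k then 1 else 0) := by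
          apply Finset.sum_le_sum
          intro k' _
          exact (degreeOf_pow_le _ _ _).trans (Nat.mul_le_mul_left _ (hlin i k k' s))
      _ = a k := by simp
  have hp0 : p = 0 := by
    apply eq_zero_of_aeval_eq_zero Q a hQ p hdeg
    rw [← h, hpdef]
    simp [map_sum, map_prod]
  have := congrArg (aeval (fun x : τ × ρ => μ x.1 x.2)) hp0
  rw [map_zero] at this
  rw [← this, hpdef]
  simp [map_sum, map_prod]

end B04
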