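import Pool.Agent.Lib.MP_0b0414_ag.Alg2
import Pool.Agent.Lib.MP_0b0414_ag.Digit

/-!
# The Taylor shift argument (property (B))
-/

set_option linter.unusedSectionVars false

open MvPolynomial Submodule Module

namespace B04

section negl

variable {R : Type*} [CommRing R] {ι : Type*} [Fintype ι]

/-- `h` is negligible in degree `t` for the functional `Λ = ∑ f_i (·)_i` on degree `d` -/
def Negl (Λ : (ι → R) →ₗ[R] R) (C : Submodule R (ι → R)) (d t : ℕ) (h : ι → R) : Prop :=
  ∀ s, t + s = d → ∀ g ∈ C ^ s, Λ (h * g) = 0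

/-- `a` and `b` have degree `t` and differ by something negligible -/
def Rel (Λ : (ι → R) →ₗ[R] R) (C : Submodule R (ι → R)) (d t : ℕ) (a b : ι → R) : Prop :=
  a ∈ C ^ t ∧ b ∈ C ^ t ∧ Negl Λ C d t (a - b)

variable {Λ : (ι → R) →ₗ[R] R} {C : Submodule R (ι → R)} {d : ℕ}

theorem Rel.refl {t : ℕ} {a : ι → R} (ha : a ∈ C ^ t) : Rel Λ C d t a a :=
  ⟨ha, ha, fun s _ g _ => by simp⟩

theorem Rel.mul {t t' : ℕ} {a b a' b' : ι → R} (h : Rel Λ C d t a b) (h' : Rel Λ C d t' a' b') :
    Rel Λ C d (t + t') (a * a') (b * b') := by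
  refine ⟨by rw [pow_add]; exact mul_mem_mul h.1 h'.1,
    by rw [pow_add]; exact mul_mem_mul h.2.1 h'.2.1, ?_⟩
  intro s hs g hg
  have e : (a * a' - b * b') * g = (a - b) * (a' * g) + (a' - b') * (b * g) := by ring
  rw [e, map_add]
  have h1 : Λ ((a - b) * (a' * g)) = 0 := by
    apply h.2.2 (t' + s) (by omega)
    rw [pow_add]; exact mul_mem_mul h'.1 hg
  have h2 : Λ ((a' - b') * (b * g)) = 0 := by
    apply h'.2.2 (t + s) (by omega)
    rw [pow_add]; exact mul_mem_mul h.2.1 hg
  rw [h1, h2, add_zero]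

theorem Rel.one : Rel Λ C d 0 1 1 := Rel.refl (by rw [pow_zero]; exact Submodule.one_le.mp le_rfl)

theorem Rel.pow {t : ℕ} {a b : ι → R} (h : Rel Λ C d t a b) (n : ℕ) :
    Rel Λ C d (n * t) (a ^ n) (b ^ n) := by
  induction n with
  | zero => simpa using Rel.one
  | succ n ih =>
    rw [pow_succ, pow_succ, Nat.succ_mul]
    exact ih.mul h

theorem Rel.prod {κ : Type*} (s : Finset κ) (α : κ → ℕ) {a b : κ → ι → R}
    (h : ∀ k ∈ s, Rel Λ C d 1 (a k) (b k)) :
    Rel Λ C d (∑ k ∈ s, α k) (∏ k ∈ s, a k ^ α k) (∏ k ∈ s, b k ^ α k) := by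
  classical
  induction s using Finset.induction_on with
  | empty => simpa using Rel.one
  | insert k s hk ih =>
    rw [Finset.sum_insert hk, Finset.prod_insert hk, Finset.prod_insert hk]
    have h1 := (h k (Finset.mem_insert_self _ _)).pow (α k)
    rw [mul_one] at h1
    exact h1.mul (ih fun k' hk' => h k' (Finset.mem_insert_of_mem hk'))

theorem Rel.eq {a b : ι → R} (h : Rel Λ C d d a b) : Λ a = Λ b := by
  have := h.2.2 0 (by omega) 1 (by rw [pow_zero]; exact Submodule.one_le.mp le_rfl)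
  rw [mul_one, map_sub] at this
  exact sub_eq_zero.mp this

end negl

variable {F : Type*} [Field F] [Fintype F] {m : ℕ} {ι : Type*} [Fintype ι]

/-- coefficients ring of the shift -/
abbrev RR (F : Type*) [Field F] (m : ℕ) := MvPolynomial (Fin (m + 1)) (KK F m)

/-- the ring of the shift -/
abbrev BB (F : Type*) [Field F] (m : ℕ) := Polynomial (RR F m)

/-- constants -/
noncomputable def kap : KK F m →+* BB F m := Polynomial.C.comp (C : KK F m →+* RR F m)

/-- the Taylor shift -/
noncomputable def sig : MvPolynomial (Fin (m + 1)) F →ₐ[F] BB F m :=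
  aeval (fun s => kap (om s) + Polynomial.X * Polynomial.C (X s))

theorem kap_algebraMap (c : F) : (kap (algebraMap F (KK F m) c) : BB F m) = algebraMap F (BB F m) c := by
  rw [IsScalarTower.algebraMap_apply F (KK F m) (BB F m)]
  rfl

theorem kap_tw (Q : ℕ) (v : Fin (m + 1) → F) :
    (kap (tw (om : Fin (m + 1) → KK F m) Q v) : BB F m) = tw (fun s => kap (om s)) Q v := by
  simp only [tw, map_sum, map_mul, map_pow, kap_algebraMap]

/-- `y_k` -/
noncomputable def yy (m : ℕ) (Q : ℕ) (v : Fin (m + 1) → F) : RR F m :=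
  ∑ s, (X s : RR F m) ^ Q * C (algebraMap F (KK F m) (v s))

theorem sig_tw (k : ℕ) (v : Fin (m + 1) → F) :
    (sig (tw (fun s => X s) (Fintype.card F ^ k) v) : BB F m)
      = kap (tw (om : Fin (m + 1) → KK F m) (Fintype.card F ^ k) v)
        + Polynomial.X ^ (Fintype.card F ^ k) * Polynomial.C (yy m (Fintype.card F ^ k) v) := by
  have h0 := map_tw (R := MvPolynomial (Fin (m + 1)) F) (R' := BB F m) sig
    (fun s => (X s : MvPolynomial (Fin (m + 1)) F)) (Fintype.card F ^ k) v
  have e : (fun s => (sig (X s : MvPolynomial (Fin (m + 1)) F) : BB F m))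
      = (fun s => (kap (om s) : BB F m)) + (fun s => Polynomial.X * Polynomial.C (X s : RR F m)) := by
    funext s
    simp [sig]
  rw [h0, e, tw_add, kap_tw]
  congr 1
  simp only [tw, yy, map_sum, map_mul, map_pow, mul_pow, Finset.mul_sum]
  refine Finset.sum_congr rfl fun s _ => ?_
  rw [mul_assoc]
  congr 2

section core

variable (v : ι → Fin (m + 1) → F)

/-- linear functions over the big ring -/
noncomputable def CB : Submodule (BB F m) (ι → BB F m) :=
  span (BB F m) (Set.range (fun s : Fin (m + 1) => fun i => algebraMap F (BB F m) (v i s)))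

theorem CB_pow_le (s : ℕ) :
    CB v ^ s ≤ span (BB F m) ((fun g : ι → KK F m => fun i => (kap (g i) : BB F m)) ''
      (C1 v ^ s : Submodule (KK F m) (ι → KK F m))) := by
  induction s with
  | zero =>
    rw [pow_zero (CB v), Submodule.one_le]
    refine subset_span ⟨1, ?_, ?_⟩
    · rw [pow_zero]; exact Submodule.one_le.mp le_rfl
    · funext i; simp
  | succ s ih =>
    rw [pow_succ (CB v)]
    refine (mul_le_mul' ih le_rfl).trans ?_
    rw [CB, span_mul_span, span_le]
    rintro _ ⟨_, ⟨g, hg, rfl⟩, _, ⟨t, rfl⟩, rfl⟩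
    refine subset_span ⟨g * xx v t, ?_, ?_⟩
    · rw [pow_succ]
      exact mul_mem_mul hg (subset_span (Set.mem_range_self t))
    · funext i
      simp only [Pi.mul_apply, map_mul, xx, kap_algebraMap]

/-- the functional with coefficients `f` -/
noncomputable def Lam (f : ι → KK F m) : (ι → BB F m) →ₗ[BB F m] BB F m :=
  ∑ i, (kap (f i) : BB F m) • LinearMap.proj i

theorem Lam_apply (f : ι → KK F m) (g : ι → BB F m) : Lam f g = ∑ i, kap (f i) * g i := by
  simp [Lam]

theorem negl_of {d : ℕ} (f : ι → KK F m) (l : ι → KK F m)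
    (hl : ∀ g ∈ C1 v ^ (d - 1), ∑ i, f i * (l i * g i) = 0) :
    Negl (Lam f) (CB v) d 1 (fun i => kap (l i)) := by
  intro s hs g hg
  have hg' := CB_pow_le v s hg
  refine Submodule.span_induction (p := fun g _ => Lam f ((fun i => kap (l i)) * g) = 0)
    ?_ ?_ ?_ ?_ hg'
  · rintro _ ⟨g', hg', rfl⟩
    rw [Lam_apply]
    have : s = d - 1 := by omega
    subst this
    have h1 := congrArg (kap : KK F m →+* BB F m) (hl g' hg')
    rw [map_sum, map_zero] at h1
    simpa [map_mul] using h1
  · rw [mul_zero, map_zero]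
  · intro x y _ _ hx hy
    rw [mul_add, map_add, hx, hy, add_zero]
  · intro a x _ hx
    rw [mul_smul_comm, map_smul, hx, smul_zero]

theorem sig_mem_CB (Q : ℕ) :
    (fun i => (sig (tw (fun s => X s) Q (v i)) : BB F m)) ∈ CB v := by
  have : (fun i => (sig (tw (fun s => X s) Q (v i)) : BB F m))
      = ∑ s, ((sig (X s) : BB F m) ^ Q) • (fun i => algebraMap F (BB F m) (v i s)) := by
    funext i
    rw [map_tw (R := MvPolynomial (Fin (m + 1)) F) (R' := BB F m) sig]
    simp [tw]
  rw [this]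
  exact sum_mem fun s _ => smul_mem _ _ (subset_span ⟨s, rfl⟩)

theorem yy_mem_CB (Q : ℕ) :
    (fun i => (Polynomial.X ^ Q * Polynomial.C (yy m Q (v i)) : BB F m)) ∈ CB v := by
  have : (fun i => (Polynomial.X ^ Q * Polynomial.C (yy m Q (v i)) : BB F m))
      = ∑ s, (Polynomial.X ^ Q * Polynomial.C ((X s : RR F m) ^ Q) : BB F m) •
          (fun i => algebraMap F (BB F m) (v i s)) := by
    funext i
    simp only [yy, map_sum, map_mul, Finset.mul_sum, Finset.sum_apply, Pi.smul_apply, smul_eq_mul]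
    refine Finset.sum_congr rfl fun s _ => ?_
    rw [mul_assoc]
    rfl
  rw [this]
  exact sum_mem fun s _ => smul_mem _ _ (subset_span ⟨s, rfl⟩)

theorem rel_small {d : ℕ} (f : ι → KK F m) (k : ℕ)
    (hl : ∀ g ∈ C1 v ^ (d - 1), ∑ i, f i * (el v k i * g i) = 0) :
    Rel (Lam f) (CB v) d 1
      (fun i => (sig (tw (fun s => X s) (Fintype.card F ^ (m - k)) (v i)) : BB F m))
      (fun i => (Polynomial.X ^ (Fintype.card F ^ (m - k)) *
        Polynomial.C (yy m (Fintype.card F ^ (m - k)) (v i)) : BB F m)) := by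
  refine ⟨by rw [pow_one]; exact sig_mem_CB v _, by rw [pow_one]; exact yy_mem_CB v _, ?_⟩
  have : (fun i => (sig (tw (fun s => X s) (Fintype.card F ^ (m - k)) (v i)) : BB F m)) -
      (fun i => (Polynomial.X ^ (Fintype.card F ^ (m - k)) *
        Polynomial.C (yy m (Fintype.card F ^ (m - k)) (v i)) : BB F m))
      = fun i => kap (el v k i) := by
    funext i
    rw [Pi.sub_apply, sig_tw]
    exact add_sub_cancel_right (kap (tw om (Fintype.card F ^ (m - k)) (v i)) : BB F m) _
  rw [this]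
  exact negl_of v f _ hl

theorem coeff_zero_sig (a : MvPolynomial (Fin (m + 1)) F) :
    (sig a : BB F m).coeff 0 = C (algebraMap (MvPolynomial (Fin (m + 1)) F) (KK F m) a) := by
  have h : (Polynomial.constantCoeff.comp (sig : MvPolynomial (Fin (m + 1)) F →ₐ[F] BB F m).toRingHom)
      = (C : KK F m →+* RR F m).comp (algebraMap (MvPolynomial (Fin (m + 1)) F) (KK F m)) := by
    apply MvPolynomial.ringHom_ext
    · intro c
      simp only [RingHom.comp_apply, AlgHom.toRingHom_eq_coe, RingHom.coe_coe]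
      rw [← algebraMap_eq, AlgHom.commutes, ← kap_algebraMap, ← IsScalarTower.algebraMap_apply]
      simp [kap]
    · intro s
      simp [sig, kap, om]
  exact congrArg (fun g => g a) (congrArg DFunLike.coe h)

/-- exponent of the shift variable -/
def EE (q m J : ℕ) (α : Fin (J + 1) →₀ ℕ) : ℕ := ∑ k : Fin J, α k.castSucc * q ^ (m - (k : ℕ))

theorem EE_inj (q m J d : ℕ) (hJ : J ≤ m) (hd : d < q) (α β : Fin (J + 1) →₀ ℕ)
    (hα : α ∈ Finset.finsuppAntidiag Finset.univ d) (hβ : β ∈ Finset.finsuppAntidiag Finset.univ d)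
    (h : EE q m J α = EE q m J β) : α = β := by
  classical
  rw [Finset.mem_finsuppAntidiag] at hα hβ
  have hs : ∀ γ : Fin (J + 1) →₀ ℕ, Finset.univ.sum γ = d → ∀ k, γ k ≤ d := by
    intro γ hγ k
    rw [← hγ]
    exact Finset.single_le_sum (f := γ) (fun _ _ => Nat.zero_le _) (Finset.mem_univ k)
  have h1 := digits_unique q m J hJ (fun k => α k.castSucc) (fun k => β k.castSucc)
    (fun k => (hs α hα.1 _).trans_lt hd) (fun k => (hs β hβ.1 _).trans_lt hd) h
  have ha := hα.1
  have hb := hβ.1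
  rw [Fin.sum_univ_castSucc] at ha hb
  have h2 : ∑ k : Fin J, α k.castSucc = ∑ k : Fin J, β k.castSucc :=
    Finset.sum_congr rfl fun k _ => congrFun h1 k
  ext k
  refine Fin.lastCases ?_ (fun k => ?_) k
  · omega
  · exact congrFun h1 k

/-- the term -/
noncomputable def Psi (f : ι → KK F m) (J : ℕ) (α : Fin (J + 1) →₀ ℕ) : BB F m :=
  ∑ i, kap (f i) * ((∏ k : Fin J, Polynomial.C (yy m (Fintype.card F ^ (m - (k : ℕ))) (v i)) ^ α k.castSucc)
    * sig (tw (fun s => X s) (Fintype.card F ^ (m - J)) (v i)) ^ α (Fin.last J))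

theorem Lam_prod (f : ι → KK F m) (J : ℕ) (d : ℕ)
    (hf : ∀ k < J, ∀ g ∈ C1 v ^ (d - 1), ∑ i, f i * (el v k i * g i) = 0)
    (α : Fin (J + 1) →₀ ℕ) (hα : α ∈ Finset.finsuppAntidiag Finset.univ d) :
    ∑ i, kap (f i) * ∏ k : Fin (J + 1), (sig (tw (fun s => X s) (Fintype.card F ^ (m - (k : ℕ))) (v i)) : BB F m) ^ α k
      = Polynomial.X ^ (EE (Fintype.card F) m J α) * Psi v f J α := by
  classical
  rw [Finset.mem_finsuppAntidiag] at hα
  have hrel : Rel (Lam f) (CB v) d (∑ k ∈ Finset.univ, α k)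
      (∏ k ∈ Finset.univ, (fun i => (sig (tw (fun s => X s) (Fintype.card F ^ (m - ((k : Fin (J + 1)) : ℕ))) (v i)) : BB F m)) ^ α k)
      (∏ k ∈ Finset.univ, (Fin.lastCases
        (fun i => (sig (tw (fun s => X s) (Fintype.card F ^ (m - J)) (v i)) : BB F m))
        (fun k : Fin J => (fun i => (Polynomial.X ^ (Fintype.card F ^ (m - (k : ℕ))) *
        Polynomial.C (yy m (Fintype.card F ^ (m - (k : ℕ))) (v i)) : BB F m))) k : ι → BB F m) ^ α k) := by
    apply Rel.prod
    intro k _
    refine Fin.lastCases ?_ (fun k => ?_) k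
    · rw [Fin.lastCases_last]
      apply Rel.refl
      rw [pow_one]
      exact sig_mem_CB v _
    · rw [Fin.lastCases_castSucc]
      exact rel_small v f _ (hf _ k.2)
  have hsum : ∑ k ∈ Finset.univ, α k = d := hα.1
  rw [hsum] at hrel
  have h1 := hrel.eq
  rw [Lam_apply, Lam_apply, Fin.prod_univ_castSucc, Fin.prod_univ_castSucc] at h1
  simp only [Fin.lastCases_last, Fin.lastCases_castSucc, Pi.mul_apply, Finset.prod_apply,
    Pi.pow_apply, Fin.val_castSucc, Fin.val_last] at h1
  simp only [Fin.prod_univ_castSucc, Fin.val_castSucc, Fin.val_last]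
  rw [h1, Psi, Finset.mul_sum]
  refine Finset.sum_congr rfl fun i _ => ?_
  have e : ∏ k : Fin J, (Polynomial.X ^ (Fintype.card F ^ (m - (k : ℕ))) *
        Polynomial.C (yy m (Fintype.card F ^ (m - (k : ℕ))) (v i)) : BB F m) ^ α k.castSucc
      = Polynomial.X ^ (EE (Fintype.card F) m J α) *
        ∏ k : Fin J, (Polynomial.C (yy m (Fintype.card F ^ (m - (k : ℕ))) (v i)) : BB F m) ^ α k.castSucc := by
    rw [EE, ← Finset.prod_pow_eq_pow_sum, ← Finset.prod_mul_distrib]
    refine Finset.prod_congr rfl fun k _ => ?_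
    rw [mul_pow, ← pow_mul, mul_comm (Fintype.card F ^ (m - (k : ℕ)))]
  rw [e]
  ring

theorem coeff_zero_Psi (f : ι → KK F m) (J : ℕ) (α : Fin (J + 1) →₀ ℕ) :
    (Psi v f J α).coeff 0 = ∑ i, C (f i * el v J i ^ α (Fin.last J)) *
      ∏ k : Fin J, (∑ s, (X s : RR F m) ^ (Fintype.card F ^ (m - (k : ℕ))) * C (xx v s i)) ^ α k.castSucc := by
  rw [Psi, Polynomial.finsetSum_coeff]
  refine Finset.sum_congr rfl fun i _ => ?_
  have h1 : (∏ k : Fin J, (Polynomial.C (yy m (Fintype.card F ^ (m - (k : ℕ))) (v i)) : BB F m) ^ α k.castSucc)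
      = Polynomial.C (∏ k : Fin J, (yy m (Fintype.card F ^ (m - (k : ℕ))) (v i)) ^ α k.castSucc) := by
    rw [map_prod]
    refine Finset.prod_congr rfl fun k _ => ?_
    rw [map_pow]
  have h2 : (kap (f i) : BB F m).coeff 0 = C (f i) := Polynomial.coeff_C_zero
  have h3 : ((sig (tw (fun s => X s) (Fintype.card F ^ (m - J)) (v i)) : BB F m) ^ α (Fin.last J)).coeff 0
      = C (el v J i ^ α (Fin.last J)) := by
    rw [← Polynomial.constantCoeff_apply, map_pow, Polynomial.constantCoeff_apply, coeff_zero_sig,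
      ← tw_om_eq, map_pow]
    rfl
  rw [h1, Polynomial.mul_coeff_zero, Polynomial.mul_coeff_zero, h2, h3, Polynomial.coeff_C_zero, map_mul]
  have h4 : (∏ k : Fin J, (yy m (Fintype.card F ^ (m - (k : ℕ))) (v i)) ^ α k.castSucc)
      = ∏ k : Fin J, (∑ s, (X s : RR F m) ^ (Fintype.card F ^ (m - (k : ℕ))) * C (xx v s i)) ^ α k.castSucc := rfl
  rw [h4, mul_assoc, mul_comm (∏ k : Fin J, _)]

/-- the heart of property (B) -/
theorem core_lemma (J : ℕ) (hJ : J ≤ m) (d : ℕ) (hd : d < Fintype.card F) (f : ι → KK F m)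
    (hf : ∀ k < J, ∀ g ∈ C1 v ^ (d - 1), ∑ i, f i * (el v k i * g i) = 0)
    (c : (Fin (J + 1) →₀ ℕ) → MvPolynomial (Fin (m + 1)) F)
    (hc : ∀ i, ∑ α ∈ Finset.finsuppAntidiag Finset.univ d,
      c α * ∏ k : Fin (J + 1), tw (fun s => X s) (Fintype.card F ^ (m - (k : ℕ))) (v i) ^ α k = 0)
    (hne : ∃ α ∈ Finset.finsuppAntidiag Finset.univ d, c α ≠ 0) :
    ∑ i, f i * el v J i ^ d = 0 := by
  classical
  set q := Fintype.card F with hq
  set S : Finset (Fin (J + 1) →₀ ℕ) := (Finset.finsuppAntidiag Finset.univ d).filter (fun α => c α ≠ 0) with hS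
  have hSne : S.Nonempty := by
    obtain ⟨α, h1, h2⟩ := hne
    exact ⟨α, by rw [hS, Finset.mem_filter]; exact ⟨h1, h2⟩⟩
  obtain ⟨a, ha, hmin⟩ := Finset.exists_min_image S (EE q m J) hSne
  rw [hS, Finset.mem_filter] at ha
  -- the total identity
  have htot : ∑ α ∈ Finset.finsuppAntidiag Finset.univ d,
      (sig (c α) : BB F m) * (Polynomial.X ^ (EE q m J α) * Psi v f J α) = 0 := by
    have h1 : ∀ i, ∑ α ∈ Finset.finsuppAntidiag Finset.univ d,
        (sig (c α) : BB F m) * ∏ k : Fin (J + 1), (sig (tw (fun s => X s) (q ^ (m - (k : ℕ))) (v i)) : BB F m) ^ α k = 0 := by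
      intro i
      have := congrArg (sig : MvPolynomial (Fin (m + 1)) F →ₐ[F] BB F m) (hc i)
      rw [map_sum, map_zero] at this
      simpa only [map_mul, map_prod, map_pow] using this
    calc ∑ α ∈ Finset.finsuppAntidiag Finset.univ d,
          (sig (c α) : BB F m) * (Polynomial.X ^ (EE q m J α) * Psi v f J α)
        = ∑ α ∈ Finset.finsuppAntidiag Finset.univ d, ∑ i,
          kap (f i) * ((sig (c α) : BB F m) * ∏ k : Fin (J + 1), (sig (tw (fun s => X s) (q ^ (m - (k : ℕ))) (v i)) : BB F m) ^ α k) := by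
          refine Finset.sum_congr rfl fun α hα => ?_
          rw [← Lam_prod v f J d hf α hα, Finset.mul_sum]
          refine Finset.sum_congr rfl fun i _ => ?_
          exact mul_left_comm _ _ _
      _ = ∑ i, kap (f i) * ∑ α ∈ Finset.finsuppAntidiag Finset.univ d,
          ((sig (c α) : BB F m) * ∏ k : Fin (J + 1), (sig (tw (fun s => X s) (q ^ (m - (k : ℕ))) (v i)) : BB F m) ^ α k) := by
          rw [Finset.sum_comm]
          refine Finset.sum_congr rfl fun i _ => ?_
          rw [Finset.mul_sum]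
      _ = 0 := by
          apply Finset.sum_eq_zero
          intro i _
          rw [h1, mul_zero]
  -- the coefficient
  have hcoef := congrArg (fun P : BB F m => P.coeff (EE q m J a)) htot
  simp only [Polynomial.finsetSum_coeff, Polynomial.coeff_zero] at hcoef
  rw [Finset.sum_eq_single a] at hcoef
  · have e1 : (sig (c a) : BB F m) * (Polynomial.X ^ (EE q m J a) * Psi v f J a)
        = (sig (c a) * Psi v f J a) * Polynomial.X ^ (EE q m J a) := by ring
    rw [e1, Polynomial.coeff_mul_X_pow', if_pos le_rfl, Nat.sub_self, Polynomial.mul_coeff_zero,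
      coeff_zero_sig] at hcoef
    have hca : (C (algebraMap (MvPolynomial (Fin (m + 1)) F) (KK F m) (c a)) : RR F m) ≠ 0 := by
      rw [Ne, C_eq_zero]
      intro h
      exact ha.2 ((IsFractionRing.injective (MvPolynomial (Fin (m + 1)) F) (KK F m)) (by rw [h, map_zero]))
    have hpsi := (mul_eq_zero.mp hcoef).resolve_left hca
    rw [coeff_zero_Psi] at hpsi
    have hsumα := (Finset.mem_finsuppAntidiag.mp ha.1).1
    have hle : ∀ k, a k ≤ d := by
      intro k
      rw [← hsumα]
      exact Finset.single_le_sum (f := a) (fun _ _ => Nat.zero_le _) (Finset.mem_univ k)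
    have hsep := digit_sep (K := KK F m) (fun k : Fin J => q ^ (m - (k : ℕ))) (fun k : Fin J => a k.castSucc)
      (by
        intro x y hx hy hxy
        exact digits_unique q m J hJ x y (fun k => ((hx k).trans (hle _)).trans_lt hd)
          (fun k => ((hy k).trans (hle _)).trans_lt hd) hxy)
      (fun i => f i * el v J i ^ a (Fin.last J)) (fun i s => xx v s i) hpsi
      (fun _ s => (om s : KK F m) ^ (q ^ (m - J)))
    rw [← hsep]
    refine Finset.sum_congr rfl fun i _ => ?_
    have e2 : ∑ s, (om s : KK F m) ^ (q ^ (m - J)) * xx v s i = el v J i := rfl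
    rw [e2, Finset.prod_pow_eq_pow_sum, mul_assoc, ← pow_add]
    congr 2
    rw [← hsumα, Fin.sum_univ_castSucc, add_comm]
  · intro α hα hne'
    by_cases h0 : c α = 0
    · rw [h0, map_zero, zero_mul, Polynomial.coeff_zero]
    · have hαS : α ∈ S := by rw [hS, Finset.mem_filter]; exact ⟨hα, h0⟩
      have h2 : EE q m J a < EE q m J α := by
        refine lt_of_le_of_ne (hmin α hαS) ?_
        intro h
        exact hne' (EE_inj q m J d hJ hd a α ha.1 hα h).symm
      have e1 : (sig (c α) : BB F m) * (Polynomial.X ^ (EE q m J α) * Psi v f J α)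
          = (sig (c α) * Psi v f J α) * Polynomial.X ^ (EE q m J α) := by ring
      rw [e1, Polynomial.coeff_mul_X_pow', if_neg (not_le.mpr h2)]
  · intro h; exact absurd ha.1 h

end core

end B04
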