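import Mathlib

/-!
# MP_0b0414_ag : common definitions

`ds q x` is the base-`q` digit sum of `x`; `cost q d n` the number of `x < n` of digit sum `≤ d`.
For `d < q` one has `cost q d (q ^ k) = (k + d).choose d`.
`Emax q n = n + ∑_{j < log_q n} q ^ j` is the maximal number of rational zeros of a system of
`(m + d).choose d - cost q d n` independent forms of degree `d` in `m + 1` variables.
-/

namespace B04

/-- base-`q` digit sum -/
def ds (q x : ℕ) : ℕ := (Nat.digits q x).sum

/-- number of `x < n` with digit sum at most `d` -/
def cost (q d n : ℕ) : ℕ := ((Finset.range n).filter (fun x => ds q x ≤ d)).card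

/-- the extremal number of points -/
def Emax (q n : ℕ) : ℕ := n + ∑ j ∈ Finset.range (Nat.log q n), q ^ j

end B04
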