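import Mathlib
import Pool.Agent.Lib.MP_0b0414_ag.Defs

/-!
# MP_0b0414_ag : module EXAMPLE

For every `n < q ^ m` with digit sum at most `d` (and `1 ≤ d < q`) an independent family of forms
of degree `d`, all products of linear forms, indexed by the `x ∈ [n, q ^ m)` of digit sum `≤ d`,
with at least `Emax q n` common rational zeros.
-/

open Finset MvPolynomial

namespace B04

/-! ### digits -/

/-- the `j`-th digit in base `q` -/
def dg (q x j : ℕ) : ℕ := x / q ^ j % q

theorem dg_lt {q : ℕ} (hq : 1 < q) (x j : ℕ) : dg q x j < q := Nat.mod_lt _ (by omega)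

theorem dg_succ (q x j : ℕ) : dg q x (j + 1) = dg q (x / q) j := by
  unfold dg
  rw [pow_succ', Nat.div_div_eq_div_mul]

theorem dg_zero' (q x : ℕ) : dg q x 0 = x % q := by simp [dg]

theorem div_lt_pow {q m x : ℕ} (hx : x < q ^ (m + 1)) : x / q < q ^ m := by
  apply Nat.div_lt_of_lt_mul
  rwa [← pow_succ']

theorem ds_eq_sum {q : ℕ} (hq : 1 < q) : ∀ m x, x < q ^ m → ds q x = ∑ j : Fin m, dg q x j := by
  intro m
  induction m with
  | zero =>
    intro x hx
    have : x = 0 := by simpa using hx
    subst this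
    simp [ds]
  | succ m ih =>
    intro x hx
    rw [Fin.sum_univ_succ]
    have h1 : ∑ i : Fin m, dg q x (i.succ : Fin (m + 1)) = ∑ i : Fin m, dg q (x / q) i := by
      apply Finset.sum_congr rfl
      intro i _
      rw [Fin.val_succ, dg_succ]
    rw [h1, ← ih (x / q) (div_lt_pow hx)]
    rw [Fin.val_zero, dg_zero']
    unfold ds
    rcases Nat.eq_zero_or_pos x with h0 | h0
    · subst h0; simp
    · rw [Nat.digits_def' hq h0]
      simp

theorem dg_mono {q : ℕ} : ∀ m x y, x < q ^ m → (∀ j < m, dg q x j ≤ dg q y j) → x ≤ y := by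
  intro m
  induction m with
  | zero =>
    intro x y hx _
    have : x = 0 := by simpa using hx
    omega
  | succ m ih =>
    intro x y hx h
    have h0 := h 0 (Nat.succ_pos m)
    rw [dg_zero', dg_zero'] at h0
    have h1 : x / q ≤ y / q := by
      apply ih (x / q) (y / q) (div_lt_pow hx)
      intro j hj
      have := h (j + 1) (by omega)
      rwa [dg_succ, dg_succ] at this
    calc x = q * (x / q) + x % q := (Nat.div_add_mod x q).symm
      _ ≤ q * (y / q) + y % q := Nat.add_le_add (Nat.mul_le_mul_left _ h1) h0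
      _ = y := Nat.div_add_mod y q

theorem dg_inj {q : ℕ} {m x y : ℕ} (hx : x < q ^ m) (hy : y < q ^ m)
    (h : ∀ j < m, dg q x j = dg q y j) : x = y :=
  le_antisymm (dg_mono m x y hx (fun j hj => (h j hj).le))
    (dg_mono m y x hy (fun j hj => (h j hj).ge))

theorem lt_of_dg_eq_zero {q : ℕ} (hq : 1 < q) {m x k : ℕ} (hx : x < q ^ m) (hk : k ≤ m)
    (h : ∀ i, k ≤ i → i < m → dg q x i = 0) : x < q ^ k := by
  have hpos : 0 < q ^ k := Nat.pow_pos (by omega)
  have h1 : x / q ^ k < q ^ (m - k) := by
    apply Nat.div_lt_of_lt_mul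
    rw [← pow_add, Nat.add_sub_cancel' hk]
    exact hx
  have h2 : x / q ^ k ≤ 0 := by
    apply dg_mono (m - k) (x / q ^ k) 0 h1
    intro j hj
    have := h (k + j) (by omega) (by omega)
    have h3 : dg q (x / q ^ k) j = dg q x (k + j) := by
      unfold dg
      rw [Nat.div_div_eq_div_mul, pow_add]
    rw [h3, this]
    exact Nat.zero_le _
  have h3 : x / q ^ k = 0 := Nat.le_zero.1 h2
  rcases Nat.div_eq_zero_iff.1 h3 with h | h
  · exact absurd h hpos.ne'
  · exact h

/-! ### products of linear forms -/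

/-- `p` is a product of `e` linear forms -/
def PL {F : Type*} [Field F] {σ : Type*} (p : MvPolynomial σ F) (e : ℕ) : Prop :=
  ∃ s : Multiset (MvPolynomial σ F), (∀ l ∈ s, l.IsHomogeneous 1) ∧ s.card = e ∧ s.prod = p

section PL
variable {F : Type*} [Field F] {σ : Type*}

theorem PL.one : PL (1 : MvPolynomial σ F) 0 := ⟨0, by simp, by simp, by simp⟩

theorem PL.single {l : MvPolynomial σ F} (hl : l.IsHomogeneous 1) : PL l 1 :=
  ⟨{l}, by simpa using hl, by simp, by simp⟩

theorem PL.mul {p p' : MvPolynomial σ F} {e e' : ℕ} (h : PL p e) (h' : PL p' e') :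
    PL (p * p') (e + e') := by
  obtain ⟨s, hs, hc, hp⟩ := h
  obtain ⟨s', hs', hc', hp'⟩ := h'
  refine ⟨s + s', ?_, by simp [hc, hc'], by simp [hp, hp']⟩
  intro l hl
  rcases Multiset.mem_add.1 hl with h | h
  · exact hs l h
  · exact hs' l h

theorem PL.prod {ι : Type*} (S : Finset ι) (p : ι → MvPolynomial σ F) (e : ι → ℕ)
    (h : ∀ i ∈ S, PL (p i) (e i)) : PL (∏ i ∈ S, p i) (∑ i ∈ S, e i) := by
  classical
  induction S using Finset.induction_on with
  | empty => simpa using PL.one
  | insert a S ha ih =>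
    rw [Finset.prod_insert ha, Finset.sum_insert ha]
    exact (h a (Finset.mem_insert_self a S)).mul
      (ih (fun i hi => h i (Finset.mem_insert_of_mem hi)))

theorem PL.pow {l : MvPolynomial σ F} (hl : l.IsHomogeneous 1) (n : ℕ) : PL (l ^ n) n := by
  have := PL.prod (Finset.range n) (fun _ => l) (fun _ => 1) (fun _ _ => PL.single hl)
  simpa using this

theorem PL.homog {p : MvPolynomial σ F} {e : ℕ} (h : PL p e) : p.IsHomogeneous e := by
  obtain ⟨s, hs, hc, hp⟩ := h
  subst hc
  subst hp
  induction s using Multiset.induction_on with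
  | empty => simpa using isHomogeneous_one σ F
  | cons a s ih =>
    rw [Multiset.prod_cons, Multiset.card_cons, add_comm]
    exact (hs a (Multiset.mem_cons_self a s)).mul
      (ih (fun l hl => hs l (Multiset.mem_cons_of_mem hl)))

end PL

/-! ### the forms -/

section forms
variable (F : Type) [Field F] [Fintype F]

/-- an enumeration of the field -/
noncomputable def al (i : ℕ) : F :=
  if h : i < Fintype.card F then (Fintype.equivFin F).symm ⟨i, h⟩ else 0

variable {F}

theorem al_inj {i j : ℕ} (hi : i < Fintype.card F) (hj : j < Fintype.card F)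
    (h : al F i = al F j) : i = j := by
  unfold al at h
  rw [dif_pos hi, dif_pos hj] at h
  have := (Fintype.equivFin F).symm.injective h
  exact Fin.mk.inj_iff.1 this

variable (F)

/-- the form attached to `x` -/
noncomputable def fm (m d x : ℕ) : MvPolynomial (Fin (m + 1)) F :=
  X 0 ^ (d - ds (Fintype.card F) x) *
    ∏ j : Fin m, ∏ i ∈ Finset.range (dg (Fintype.card F) x j), (X j.succ - C (al F i) * X 0)

omit [Fintype F] in
theorem lin_homog (m : ℕ) (j : Fin m) (c : F) :
    (X j.succ - C c * X 0 : MvPolynomial (Fin (m + 1)) F).IsHomogeneous 1 := by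
  apply IsHomogeneous.sub (isHomogeneous_X F _)
  exact IsHomogeneous.C_mul (isHomogeneous_X F _) c

theorem fm_PL {m d x : ℕ} (hx : x < Fintype.card F ^ m) (hd : ds (Fintype.card F) x ≤ d) :
    PL (fm F m d x) d := by
  have hq : 1 < Fintype.card F := Fintype.one_lt_card
  have h1 : PL (fm F m d x) ((d - ds (Fintype.card F) x) +
      ∑ j : Fin m, ∑ _i ∈ Finset.range (dg (Fintype.card F) x j), 1) := by
    unfold fm
    apply PL.mul
    · exact PL.pow (isHomogeneous_X F _) _
    · apply PL.prod
      intro j _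
      apply PL.prod
      intro i _
      exact PL.single (lin_homog F m j _)
  have h2 : (∑ j : Fin m, ∑ _i ∈ Finset.range (dg (Fintype.card F) x j), 1)
      = ds (Fintype.card F) x := by
    rw [ds_eq_sum hq m x hx]
    simp
  rw [h2, Nat.sub_add_cancel hd] at h1
  exact h1

omit [Fintype F] in
/-- evaluation of a homogeneous polynomial at a multiple -/
theorem eval_smul_of_PL {σ : Type*} {p : MvPolynomial σ F} {e : ℕ} (h : p.IsHomogeneous e)
    (a : F) (v : σ → F) : eval (a • v) p = a ^ e * eval v p := by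
  rw [eval_eq, eval_eq, Finset.mul_sum]
  apply Finset.sum_congr rfl
  intro dd hdd
  have hdeg : ∑ i ∈ dd.support, dd i = e := (h.degree_eq_sum_deg_support hdd).symm
  simp only [Pi.smul_apply, smul_eq_mul, mul_pow]
  rw [Finset.prod_mul_distrib, Finset.prod_pow_eq_pow_sum, hdeg]
  ring

/-- affine points -/
noncomputable def vA (m y : ℕ) : Fin (m + 1) → F :=
  Fin.cons 1 (fun j : Fin m => al F (dg (Fintype.card F) y j))

/-- points at infinity -/
noncomputable def vB (m k y : ℕ) : Fin (m + 1) → F :=
  Fin.cons 0 (fun j : Fin m => if (j : ℕ) < k then al F (dg (Fintype.card F) y j)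
    else if (j : ℕ) = k then 1 else 0)

theorem vA_zero (m y : ℕ) : vA F m y 0 = 1 := rfl

theorem vA_succ (m y : ℕ) (j : Fin m) :
    vA F m y j.succ = al F (dg (Fintype.card F) y j) := rfl

theorem vB_zero (m k y : ℕ) : vB F m k y 0 = 0 := rfl

theorem vB_succ (m k y : ℕ) (j : Fin m) :
    vB F m k y j.succ = if (j : ℕ) < k then al F (dg (Fintype.card F) y j)
      else if (j : ℕ) = k then 1 else 0 := rfl

theorem vB_succ_self (m k y : ℕ) (hk : k < m) : vB F m k y (Fin.succ ⟨k, hk⟩) = 1 := by
  rw [vB_succ]; simp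

theorem vB_succ_gt (m k y i : ℕ) (hi : i < m) (hk : k < i) :
    vB F m k y (Fin.succ ⟨i, hi⟩) = 0 := by
  rw [vB_succ, if_neg (by simp only; omega), if_neg (by simp only; omega)]

theorem eval_fm (m d x : ℕ) (v : Fin (m + 1) → F) :
    eval v (fm F m d x) = v 0 ^ (d - ds (Fintype.card F) x) *
      ∏ j : Fin m, ∏ i ∈ Finset.range (dg (Fintype.card F) x j), (v j.succ - al F i * v 0) := by
  unfold fm
  simp

theorem le_of_eval_vA {m d x y : ℕ} (hx : x < Fintype.card F ^ m)
    (h : eval (vA F m y) (fm F m d x) ≠ 0) : x ≤ y := by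
  have hq : 1 < Fintype.card F := Fintype.one_lt_card
  apply dg_mono m x y hx
  intro j hj
  by_contra hlt
  rw [not_le] at hlt
  apply h
  rw [eval_fm]
  have : ∏ j : Fin m, ∏ i ∈ Finset.range (dg (Fintype.card F) x j),
      (vA F m y j.succ - al F i * vA F m y 0) = 0 := by
    apply Finset.prod_eq_zero (Finset.mem_univ (⟨j, hj⟩ : Fin m))
    apply Finset.prod_eq_zero (Finset.mem_range.2 hlt)
    rw [vA_succ, vA_zero, mul_one, sub_self]
  rw [this, mul_zero]

theorem eval_vA_self {m d x : ℕ} : eval (vA F m x) (fm F m d x) ≠ 0 := by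
  have hq : 1 < Fintype.card F := Fintype.one_lt_card
  rw [eval_fm]
  apply mul_ne_zero
  · simp [vA]
  · rw [Finset.prod_ne_zero_iff]
    intro j _
    rw [Finset.prod_ne_zero_iff]
    intro i hi
    have hi' := Finset.mem_range.1 hi
    simp only [vA, Fin.cons_succ, Fin.cons_zero, mul_one]
    intro h0
    have := al_inj (dg_lt hq x j) (hi'.trans (dg_lt hq x j)) (sub_eq_zero.1 h0)
    omega

theorem eval_vB {m d x n k y : ℕ} (hx : x < Fintype.card F ^ m) (hnx : n ≤ x)
    (hk : k < Nat.log (Fintype.card F) n) (hn : n ≠ 0) :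
    eval (vB F m k y) (fm F m d x) = 0 := by
  have hq : 1 < Fintype.card F := Fintype.one_lt_card
  by_contra h
  rw [eval_fm] at h
  have h2 := right_ne_zero_of_mul h
  rw [Finset.prod_ne_zero_iff] at h2
  have hlog : Fintype.card F ^ Nat.log (Fintype.card F) n ≤ n := Nat.pow_log_le_self _ hn
  have hkm : k + 1 ≤ m := by
    by_contra hcon
    have h3 : Fintype.card F ^ m ≤ Fintype.card F ^ Nat.log (Fintype.card F) n :=
      Nat.pow_le_pow_right (by omega) (by omega)
    omega
  have h4 : x < Fintype.card F ^ (k + 1) := by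
    apply lt_of_dg_eq_zero hq hx hkm
    intro i hki him
    by_contra hne
    have h5 := h2 ⟨i, him⟩ (Finset.mem_univ _)
    rw [Finset.prod_ne_zero_iff] at h5
    have h6 := h5 0 (Finset.mem_range.2 (Nat.pos_of_ne_zero hne))
    apply h6
    rw [vB_succ_gt F m k y i him (by omega), vB_zero, mul_zero, sub_zero]
  have h7 : Fintype.card F ^ (k + 1) ≤ Fintype.card F ^ Nat.log (Fintype.card F) n :=
    Nat.pow_le_pow_right (by omega) (by omega)
  omega

theorem vA_inj {m y y' : ℕ} (hy : y < Fintype.card F ^ m) (hy' : y' < Fintype.card F ^ m)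
    (h : vA F m y = vA F m y') : y = y' := by
  have hq : 1 < Fintype.card F := Fintype.one_lt_card
  apply dg_inj hy hy'
  intro j hj
  have := congrFun h (Fin.succ ⟨j, hj⟩)
  simp only [vA, Fin.cons_succ] at this
  exact al_inj (dg_lt hq _ _) (dg_lt hq _ _) this

theorem vB_inj {m k y y' : ℕ} (hk : k < m) (hy : y < Fintype.card F ^ k)
    (hy' : y' < Fintype.card F ^ k) (h : vB F m k y = vB F m k y') : y = y' := by
  have hq : 1 < Fintype.card F := Fintype.one_lt_card
  apply dg_inj hy hy'
  intro j hj
  have := congrFun h (Fin.succ ⟨j, hj.trans hk⟩)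
  simp only [vB, Fin.cons_succ, if_pos hj] at this
  exact al_inj (dg_lt hq _ _) (dg_lt hq _ _) this

theorem vB_top {m k y k' y' : ℕ} (hk : k < m) {a : F} (h : vB F m k y = a • vB F m k' y') :
    k ≤ k' := by
  by_contra hlt
  have := congrFun h (Fin.succ ⟨k, hk⟩)
  rw [Pi.smul_apply, vB_succ_self, vB_succ_gt F m k' y' k hk (by omega), smul_zero] at this
  exact one_ne_zero this

end forms

/-- module EXAMPLE -/
theorem example_forms (F : Type) [Field F] [Fintype F] [DecidableEq F] (m d n : ℕ)
    (hd1 : 1 ≤ d) (hd : d < Fintype.card F) (hn : n < Fintype.card F ^ m)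
    (hs : ds (Fintype.card F) n ≤ d) :
    ∃ f : {x : ℕ // x ∈ (range (Fintype.card F ^ m)).filter
        (fun x => n ≤ x ∧ ds (Fintype.card F) x ≤ d)} →
        MvPolynomial (Fin (m + 1)) F,
      (∀ i, (f i).IsHomogeneous d) ∧ LinearIndependent F f ∧
      (∀ i, ∃ s : Multiset (MvPolynomial (Fin (m + 1)) F),
        (∀ l ∈ s, l.IsHomogeneous 1) ∧ s.prod = f i) ∧
      Emax (Fintype.card F) n ≤
        {x : Projectivization F (Fin (m + 1) → F) |
          ∀ i, MvPolynomial.eval x.rep (f i) = 0}.ncard := by
  classical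
  set q := Fintype.card F with hqdef
  have hq : 1 < q := Fintype.one_lt_card
  have hmem : ∀ i : {x : ℕ // x ∈ (range (q ^ m)).filter (fun x => n ≤ x ∧ ds q x ≤ d)},
      i.1 < q ^ m ∧ n ≤ i.1 ∧ ds q i.1 ≤ d := by
    intro i
    have := i.2
    rw [Finset.mem_filter, Finset.mem_range] at this
    exact this
  refine ⟨fun i => fm F m d i.1, ?_, ?_, ?_, ?_⟩
  · intro i
    exact (fm_PL F (hmem i).1 (hmem i).2.2).homog
  · rw [linearIndependent_iff']
    intro S g hg
    by_contra hcon
    push Not at hcon
    -- minimal element with nonzero coefficient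
    have hne : (S.filter (fun i => g i ≠ 0)).Nonempty := by
      obtain ⟨i, hi, hgi⟩ := hcon
      exact ⟨i, by simp [hi, hgi]⟩
    obtain ⟨i0, hi0, hmin⟩ := Finset.exists_min_image _ (fun i => i.1) hne
    rw [Finset.mem_filter] at hi0
    have h1 := congrArg (eval (vA F m i0.1)) hg
    rw [map_zero, map_sum] at h1
    rw [Finset.sum_eq_single i0] at h1
    · rw [smul_eval] at h1
      rcases mul_eq_zero.1 h1 with h2 | h2
      · exact hi0.2 h2
      · exact eval_vA_self F h2
    · intro j hj hji
      rw [smul_eval]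
      by_cases hgj : g j = 0
      · rw [hgj, zero_mul]
      · have h3 : i0.1 ≤ j.1 := hmin j (by simp [hj, hgj])
        have h4 : eval (vA F m i0.1) (fm F m d j.1) = 0 := by
          by_contra h5
          have h6 := le_of_eval_vA F (hmem j).1 h5
          exact hji (Subtype.ext (by omega))
        rw [h4, mul_zero]
    · intro h; exact absurd hi0.1 h
  · intro i
    obtain ⟨s, hs1, -, hs2⟩ := fm_PL F (hmem i).1 (hmem i).2.2
    exact ⟨s, hs1, hs2⟩
  · -- the zeros
    have hL : ∀ k, k < Nat.log q n → k < m ∧ n ≠ 0 := by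
      intro k hk
      have hn0 : n ≠ 0 := by
        rintro rfl
        simp at hk
      refine ⟨?_, hn0⟩
      by_contra hcon
      have h3 : q ^ m ≤ q ^ Nat.log q n := Nat.pow_le_pow_right (by omega) (by omega)
      have h4 : q ^ Nat.log q n ≤ n := Nat.pow_log_le_self _ hn0
      omega
    let VA : Finset (Fin (m + 1) → F) := (Finset.range n).image (vA F m)
    let VB : Finset (Fin (m + 1) → F) :=
      (Finset.range (Nat.log q n)).biUnion (fun k => (Finset.range (q ^ k)).image (vB F m k))
    have hcardA : VA.card = n := by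
      rw [Finset.card_image_of_injOn, Finset.card_range]
      intro y hy y' hy' h
      rw [Finset.coe_range, Set.mem_Iio] at hy hy'
      exact vA_inj F (hy.trans hn) (hy'.trans hn) h
    have hcardB : VB.card = ∑ k ∈ Finset.range (Nat.log q n), q ^ k := by
      rw [Finset.card_biUnion]
      · apply Finset.sum_congr rfl
        intro k hk
        rw [Finset.card_image_of_injOn, Finset.card_range]
        intro y hy y' hy' h
        rw [Finset.coe_range, Set.mem_Iio] at hy hy'
        exact vB_inj F (hL k (Finset.mem_range.1 hk)).1 hy hy' h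
      · intro k hk k' hk' hne
        change Disjoint _ _
        rw [Finset.disjoint_left]
        intro v hv hv'
        obtain ⟨y, _, rfl⟩ := Finset.mem_image.1 hv
        obtain ⟨y', _, h⟩ := Finset.mem_image.1 hv'
        apply hne
        have hk1 := (hL k (Finset.mem_range.1 hk)).1
        have hk2 := (hL k' (Finset.mem_range.1 hk')).1
        apply le_antisymm
        · exact vB_top F (a := 1) hk1 (by rw [one_smul, h])
        · exact vB_top F (a := 1) hk2 (by rw [one_smul, h])
    have hVA0 : ∀ v ∈ VA, v 0 = 1 := by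
      intro v hv
      obtain ⟨y, _, rfl⟩ := Finset.mem_image.1 hv
      simp [vA]
    have hVB : ∀ v ∈ VB, ∃ k y, k < Nat.log q n ∧ y < q ^ k ∧ v = vB F m k y := by
      intro v hv
      obtain ⟨k, hk, hv⟩ := Finset.mem_biUnion.1 hv
      obtain ⟨y, hy, rfl⟩ := Finset.mem_image.1 hv
      exact ⟨k, y, Finset.mem_range.1 hk, Finset.mem_range.1 hy, rfl⟩
    have hVB0 : ∀ v ∈ VB, v 0 = 0 := by
      intro v hv
      obtain ⟨k, y, _, _, rfl⟩ := hVB v hv
      simp [vB]
    have hdisj : Disjoint VA VB := by
      rw [Finset.disjoint_left]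
      intro v hv hv'
      have h1 := hVA0 v hv
      have h2 := hVB0 v hv'
      rw [h1] at h2
      exact one_ne_zero h2
    have hcard : (VA ∪ VB).card = Emax q n := by
      rw [Finset.card_union_of_disjoint hdisj, hcardA, hcardB, Emax]
    have hne0 : ∀ v ∈ VA ∪ VB, v ≠ 0 := by
      intro v hv h0
      rcases Finset.mem_union.1 hv with h | h
      · have := hVA0 v h
        rw [h0] at this
        simp at this
      · obtain ⟨k, y, hk, _, rfl⟩ := hVB v h
        have := congrFun h0 (Fin.succ ⟨k, (hL k hk).1⟩)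
        rw [vB_succ_self] at this
        exact one_ne_zero this
    let pt : (Fin (m + 1) → F) → Projectivization F (Fin (m + 1) → F) := fun v =>
      if h : v ≠ 0 then Projectivization.mk F v h else Projectivization.mk F (fun _ => 1)
        (fun h => one_ne_zero (congrFun h 0))
    have hinj : Set.InjOn pt (VA ∪ VB : Finset (Fin (m + 1) → F)) := by
      intro v hv w hw h
      rw [Finset.mem_coe] at hv hw
      have hv0 := hne0 v hv
      have hw0 := hne0 w hw
      simp only [pt, dif_pos hv0, dif_pos hw0] at h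
      rw [Projectivization.mk_eq_mk_iff'] at h
      obtain ⟨a, ha⟩ := h
      -- a • w = v
      have ha0 : a ≠ 0 := by
        rintro rfl
        rw [zero_smul] at ha
        exact hv0 ha.symm
      suffices a = 1 by rw [← ha, this, one_smul]
      rcases Finset.mem_union.1 hv with hv1 | hv1
      · have e1 := congrFun ha 0
        rw [hVA0 v hv1, Pi.smul_apply, smul_eq_mul] at e1
        rcases Finset.mem_union.1 hw with hw1 | hw1
        · rwa [hVA0 w hw1, mul_one] at e1
        · rw [hVB0 w hw1, mul_zero] at e1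
          exact absurd e1 zero_ne_one
      · have e1 := congrFun ha 0
        rw [hVB0 v hv1, Pi.smul_apply, smul_eq_mul] at e1
        rcases Finset.mem_union.1 hw with hw1 | hw1
        · rw [hVA0 w hw1, mul_one] at e1
          exact absurd e1 ha0
        · obtain ⟨k, y, hk, hy, rfl⟩ := hVB v hv1
          obtain ⟨k', y', hk', hy', rfl⟩ := hVB w hw1
          have hkk' : k ≤ k' := vB_top F (hL k hk).1 ha.symm
          have hk'k : k' ≤ k := by
            apply vB_top F (a := a⁻¹) (hL k' hk').1
            rw [← ha, smul_smul, inv_mul_cancel₀ ha0, one_smul]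
          have hkeq : k = k' := le_antisymm hkk' hk'k
          subst hkeq
          have e2 := congrFun ha (Fin.succ ⟨k, (hL k hk).1⟩)
          rwa [Pi.smul_apply, vB_succ_self, vB_succ_self, smul_eq_mul, mul_one] at e2
    have hzero : ∀ v ∈ VA ∪ VB, ∀ i : {x : ℕ // x ∈ (range (q ^ m)).filter
        (fun x => n ≤ x ∧ ds q x ≤ d)}, eval v (fm F m d i.1) = 0 := by
      intro v hv i
      obtain ⟨hi1, hi2, hi3⟩ := hmem i
      rcases Finset.mem_union.1 hv with h | h
      · obtain ⟨y, hy, rfl⟩ := Finset.mem_image.1 h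
        rw [Finset.mem_range] at hy
        by_contra hne
        have := le_of_eval_vA F hi1 hne
        omega
      · obtain ⟨k, y, hk, _, rfl⟩ := hVB v h
        exact eval_vB F hi1 hi2 hk (hL k hk).2
    rw [← hcard, ← Finset.card_image_of_injOn hinj, ← Set.ncard_coe_finset]
    apply Set.ncard_le_ncard _ (Set.toFinite _)
    intro p hp
    rw [Finset.mem_coe] at hp
    obtain ⟨v, hv, rfl⟩ := Finset.mem_image.1 hp
    intro i
    have hv0 := hne0 v hv
    simp only [pt, dif_pos hv0]
    obtain ⟨a, ha⟩ := Projectivization.exists_smul_eq_mk_rep F v hv0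
    rw [← ha]
    have hhom := (fm_PL F (hmem i).1 (hmem i).2.2).homog
    have := eval_smul_of_PL F hhom (a : F) v
    rw [hzero v hv i, mul_zero] at this
    exact this

end B04
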