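import Mathlib

/-!
# The degree-reverse-lexicographic order through tail sums
-/

open Finset

namespace B04

variable {m : ℕ}

/-- tail sums `a_i + a_{i+1} + ...` -/
def tail (a : Fin m → ℕ) (i : Fin m) : ℕ := ∑ l ∈ Finset.Ici i, a l

theorem tail_add (a b : Fin m → ℕ) : tail (a + b) = tail a + tail b := by
  funext i
  simp [tail, Finset.sum_add_distrib]

theorem tail_single (j : Fin m) (d : ℕ) (i : Fin m) :
    tail (Pi.single j d) i = if i ≤ j then d else 0 := by
  unfold tail
  rw [Finset.sum_pi_single']
  simp [Finset.mem_Ici]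

theorem tail_le_sum (a : Fin m → ℕ) (i : Fin m) : tail a i ≤ ∑ l, a l :=
  Finset.sum_le_sum_of_subset (Finset.subset_univ _)

theorem tail_zero (a : Fin (m + 1) → ℕ) : tail a 0 = ∑ l, a l := by
  unfold tail
  congr 1
  ext l
  simp

theorem tail_eq (a : Fin m → ℕ) (i : Fin m) :
    tail a i = a i + ∑ l ∈ Finset.Ioi i, a l := by
  unfold tail
  rw [← Finset.Ioi_insert, Finset.sum_insert (by simp)]

theorem tail_injective : Function.Injective (tail : (Fin m → ℕ) → (Fin m → ℕ)) := by
  intro a b h
  funext i
  -- downward induction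
  have H : ∀ n : ℕ, ∀ i : Fin m, m - i.1 ≤ n → a i = b i := by
    intro n
    induction n with
    | zero => intro i hi; have := i.2; omega
    | succ n ih =>
      intro i hi
      have h1 := congrFun h i
      rw [tail_eq, tail_eq] at h1
      have h2 : ∑ l ∈ Finset.Ioi i, a l = ∑ l ∈ Finset.Ioi i, b l := by
        apply Finset.sum_congr rfl
        intro l hl
        rw [Finset.mem_Ioi] at hl
        apply ih
        have := Fin.lt_def.mp hl
        omega
      omega
  exact H m i (by omega)

/-- the key of the order -/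
def key (a : Fin m → ℕ) : Lex (Fin m → ℕ) := toLex (tail a)

theorem key_injective : Function.Injective (key : (Fin m → ℕ) → Lex (Fin m → ℕ)) :=
  fun _ _ h => tail_injective (toLex.injective h)

theorem key_add (a b : Fin m → ℕ) : key (a + b) = key a + key b := by
  unfold key
  rw [tail_add]
  rfl

theorem key_lt_add {a b : Fin m → ℕ} (c : Fin m → ℕ) (h : key a < key b) :
    key (a + c) < key (b + c) := by
  rw [key_add, key_add]
  gcongr

theorem key_lt_iff {a b : Fin m → ℕ} :
    key a < key b ↔ ∃ i, (∀ j < i, tail a j = tail b j) ∧ tail a i < tail b i := Iff.rfl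

theorem key_lt_of {a b : Fin m → ℕ} (i : Fin m) (h1 : ∀ j ≤ i, tail a j ≤ tail b j)
    (h2 : tail a i < tail b i) : key a < key b := by
  classical
  have hne : (univ.filter (fun j => tail a j < tail b j)).Nonempty := ⟨i, by simp [h2]⟩
  set j := (univ.filter (fun j => tail a j < tail b j)).min' hne with hj
  have hjm := Finset.min'_mem _ hne
  rw [← hj] at hjm
  rw [Finset.mem_filter] at hjm
  rw [key_lt_iff]
  refine ⟨j, ?_, hjm.2⟩
  intro k hk
  have hki : k ≤ i := by
    have : j ≤ i := Finset.min'_le _ _ (by simp [h2])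
    exact (hk.trans_le this).le
  apply le_antisymm (h1 k hki)
  by_contra hcon
  push Not at hcon
  have := Finset.min'_le (univ.filter (fun j => tail a j < tail b j)) k (by simp [hcon])
  rw [← hj] at this
  exact absurd hk (not_lt.mpr this)

theorem sum_le_of_key_lt {a b : Fin m → ℕ} (h : key a < key b) : ∑ l, a l ≤ ∑ l, b l := by
  rw [key_lt_iff] at h
  obtain ⟨i, h1, h2⟩ := h
  cases m with
  | zero => exact i.elim0
  | succ m =>
    rw [← tail_zero, ← tail_zero]
    rcases eq_or_ne i 0 with rfl | hi
    · exact h2.le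
    · exact (h1 0 (Fin.pos_iff_ne_zero.mpr hi)).le

theorem key_lt_of_sum_lt {a b : Fin m → ℕ} (h : ∑ l, a l < ∑ l, b l) : key a < key b := by
  cases m with
  | zero => simp at h
  | succ m =>
    apply key_lt_of 0
    · intro j hj
      have : j = 0 := by simpa using hj
      subst this
      rw [tail_zero, tail_zero]; exact h.le
    · rw [tail_zero, tail_zero]; exact h

end B04
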