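import Mathlib

/-!
# MP_0b0414_ag : module LINEAR

Ideals generated by linear forms are prime; if every generator of an ideal is a product of linear
forms, then every common zero of the generators lies on a minimal prime generated by linear forms.
-/

open Finset MvPolynomial

namespace B04

/-- an ideal generated by linear forms is prime -/
theorem span_linear_isPrime {k : Type*} [Field k] {σ : Type*}
    (S : Set (MvPolynomial σ k)) (hS : ∀ l ∈ S, l.IsHomogeneous 1) :
    (Ideal.span S).IsPrime := by
  classical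
  set W : Submodule k (MvPolynomial σ k) := Submodule.span k S with hW
  have hWI : ∀ w ∈ W, w ∈ Ideal.span S := by
    intro w hw
    have : W ≤ (Ideal.span S).restrictScalars k := by
      rw [hW, Submodule.span_le]
      intro s hs
      exact Ideal.subset_span hs
    exact this hw
  obtain ⟨g, hg⟩ := W.mkQ.exists_rightInverse_of_surjective W.range_mkQ
  have hg' : ∀ y, W.mkQ (g y) = y := fun y => by
    have := congrArg (fun h => h y) hg
    simpa using this
  let π : MvPolynomial σ k →ₗ[k] MvPolynomial σ k := g ∘ₗ W.mkQ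
  have hπW : ∀ w ∈ W, π w = 0 := by
    intro w hw
    have : W.mkQ w = 0 := by
      rw [Submodule.mkQ_apply, Submodule.Quotient.mk_eq_zero]; exact hw
    simp only [π, LinearMap.comp_apply, this, map_zero]
  have hπ : ∀ x, x - π x ∈ W := by
    intro x
    have : W.mkQ (x - π x) = 0 := by
      rw [map_sub]
      simp only [π, LinearMap.comp_apply, hg', sub_self]
    rwa [Submodule.mkQ_apply, Submodule.Quotient.mk_eq_zero] at this
  let φ : MvPolynomial σ k →ₐ[k] MvPolynomial σ k := aeval (fun s => π (X s))
  have hφlin : ∀ l : MvPolynomial σ k, l.IsHomogeneous 1 → φ l = π l := by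
    intro l hl
    have hl' : l ∈ homogeneousSubmodule σ k 1 := hl
    rw [homogeneousSubmodule_one_eq_span_X] at hl'
    clear hl
    induction hl' using Submodule.span_induction with
    | mem x hx =>
      obtain ⟨s, rfl⟩ := hx
      simp [φ]
    | zero => simp
    | add x y _ _ hx hy => rw [map_add, map_add, hx, hy]
    | smul a x _ hx => rw [map_smul, map_smul, hx]
  have hsub : ∀ p : MvPolynomial σ k, p - φ p ∈ Ideal.span S := by
    intro p
    induction p using MvPolynomial.induction_on with
    | C a => simp [φ]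
    | add p q hp hq =>
      have : p + q - φ (p + q) = (p - φ p) + (q - φ q) := by rw [map_add]; ring
      rw [this]; exact Ideal.add_mem _ hp hq
    | mul_X p s hp =>
      have : p * X s - φ (p * X s) = (p - φ p) * X s + φ p * (X s - φ (X s)) := by
        rw [map_mul]; ring
      rw [this]
      refine Ideal.add_mem _ (Ideal.mul_mem_right _ _ hp) (Ideal.mul_mem_left _ _ ?_)
      have h2 : φ (X s) = π (X s) := by simp [φ]
      rw [h2]
      exact hWI _ (hπ _)
  have hker : Ideal.span S = RingHom.ker φ := by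
    apply le_antisymm
    · rw [Ideal.span_le]
      intro l hl
      have h1 : φ l = 0 := by
        rw [hφlin l (hS l hl)]
        exact hπW l (Submodule.subset_span hl)
      exact h1
    · intro p hp
      have h1 : φ p = 0 := hp
      have h2 := hsub p
      rwa [h1, sub_zero] at h2
  rw [hker]
  exact RingHom.ker_isPrime φ

/-- module LINEAR -/
theorem exists_linear_minimalPrime {k : Type*} [Field k] {σ : Type*} [Finite σ] {ι : Type*}
    [Finite ι] (f : ι → MvPolynomial σ k)
    (hf : ∀ i, ∃ s : Multiset (MvPolynomial σ k), (∀ l ∈ s, l.IsHomogeneous 1) ∧ s.prod = f i)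
    (x : σ → k) (hx : ∀ i, eval x (f i) = 0) :
    ∃ P ∈ (Ideal.span (Set.range f)).minimalPrimes,
      (∃ S : Set (MvPolynomial σ k), (∀ l ∈ S, l.IsHomogeneous 1) ∧ P = Ideal.span S) ∧
      ∀ g ∈ P, eval x g = 0 := by
  classical
  set I := Ideal.span (Set.range f) with hI
  have hIle : I ≤ RingHom.ker (eval x) := by
    rw [hI, Ideal.span_le]
    rintro _ ⟨i, rfl⟩
    exact hx i
  have : (RingHom.ker (eval x)).IsPrime := RingHom.ker_isPrime _
  obtain ⟨P, hP, hPle⟩ := Ideal.exists_minimalPrimes_le hIle
  have hPprime : P.IsPrime := hP.1.1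
  have hIP : I ≤ P := hP.1.2
  have hex : ∀ i, ∃ l : MvPolynomial σ k, l.IsHomogeneous 1 ∧ l ∈ P ∧ l ∣ f i := by
    intro i
    obtain ⟨s, hs, hsp⟩ := hf i
    have hfi : s.prod ∈ P := by
      rw [hsp]; exact hIP (Ideal.subset_span ⟨i, rfl⟩)
    obtain ⟨l, hl, hlP⟩ := (hPprime.multiset_prod_mem_iff_exists_mem s).1 hfi
    exact ⟨l, hs l hl, hlP, hsp ▸ Multiset.dvd_prod hl⟩
  choose l hl1 hlP hld using hex
  have hprime : (Ideal.span (Set.range l)).IsPrime :=
    span_linear_isPrime _ (by rintro _ ⟨i, rfl⟩; exact hl1 i)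
  have hIl : I ≤ Ideal.span (Set.range l) := by
    rw [hI, Ideal.span_le]
    rintro _ ⟨i, rfl⟩
    exact Ideal.mem_of_dvd _ (hld i) (Ideal.subset_span ⟨i, rfl⟩)
  have hlleP : Ideal.span (Set.range l) ≤ P := by
    rw [Ideal.span_le]
    rintro _ ⟨i, rfl⟩
    exact hlP i
  have hPl : P ≤ Ideal.span (Set.range l) := hP.2 ⟨hprime, hIl⟩ hlleP
  refine ⟨P, hP, ⟨Set.range l, by rintro _ ⟨i, rfl⟩; exact hl1 i, le_antisymm hPl hlleP⟩, ?_⟩
  intro g hg
  exact hPle hg

end B04
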