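import Pool.Agent.Lib.MP_0b0414_ag.Upper
import Pool.Agent.Lib.MP_0b0414_ag.Example
import Pool.Agent.Lib.MP_0b0414_ag.Linear

/-!
# Assembly
-/

set_option linter.unusedSectionVars false

open MvPolynomial Submodule Module

namespace B04

theorem cost_zero (q d : ℕ) : cost q d 0 = 0 := by simp [cost]

theorem cost_succ (q d n : ℕ) : cost q d (n + 1) = cost q d n + if ds q n ≤ d then 1 else 0 := by
  classical
  unfold cost
  rw [Finset.range_add_one, Finset.filter_insert]
  split_ifs with h
  · rw [Finset.card_insert_of_notMem (by simp)]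
  · rfl

/-- the choice of `n` -/
theorem exists_n (q d : ℕ) (m c : ℕ) (hc : c < cost q d (q ^ m)) :
    ∃ n, n < q ^ m ∧ cost q d n = c ∧ ds q n ≤ d ∧ c < cost q d (n + 1) := by
  classical
  have hex : ∃ k, c < cost q d k := ⟨_, hc⟩
  set k := Nat.find hex with hk
  have hspec : c < cost q d k := Nat.find_spec hex
  have hk0 : k ≠ 0 := by
    intro h0
    rw [h0, cost_zero] at hspec
    exact absurd hspec (Nat.not_lt_zero _)
  obtain ⟨n, hn⟩ : ∃ n, k = n + 1 := ⟨k - 1, by omega⟩
  have hmin : ¬ c < cost q d n := Nat.find_min hex (by omega)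
  rw [hn, cost_succ] at hspec
  refine ⟨n, ?_, ?_, ?_, ?_⟩
  · have : k ≤ q ^ m := Nat.find_min' hex hc
    omega
  · split_ifs at hspec <;> omega
  · by_contra h
    rw [if_neg h] at hspec
    omega
  · rw [cost_succ]; exact hspec

theorem card_index (q d m n : ℕ) (hn : n < q ^ m) :
    cost q d n + ((Finset.range (q ^ m)).filter (fun x => n ≤ x ∧ ds q x ≤ d)).card
      = cost q d (q ^ m) := by
  classical
  unfold cost
  rw [← Finset.card_union_of_disjoint]
  · congr 1
    ext x
    simp only [Finset.mem_union, Finset.mem_filter, Finset.mem_range]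
    constructor
    · rintro (⟨h1, h2⟩ | ⟨h1, h2, h3⟩)
      · exact ⟨by omega, h2⟩
      · exact ⟨h1, h3⟩
    · rintro ⟨h1, h2⟩
      by_cases h : x < n
      · exact Or.inl ⟨h, h2⟩
      · exact Or.inr ⟨h1, by omega, h2⟩
  · rw [Finset.disjoint_left]
    intro x hx hx'
    simp only [Finset.mem_filter, Finset.mem_range] at hx hx'
    omega

variable {F : Type} [Field F] [Fintype F] {m : ℕ}

/-- the number of zeros of a system -/
theorem zeros_le (hq : 1 < Fintype.card F) (hm : 0 < m) (d : ℕ) (hd1 : 1 ≤ d)
    (hd : d < Fintype.card F) (r : ℕ) (G : Fin r → MvPolynomial (Fin (m + 1)) F)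
    (hG : ∀ i, (G i).IsHomogeneous d) (hli : LinearIndependent F G) (n : ℕ)
    (hn : (m + d).choose d < cost (Fintype.card F) d (n + 1) + r) :
    {x : Projectivization F (Fin (m + 1) → F) | ∀ i, MvPolynomial.eval x.rep (G i) = 0}.ncard
      ≤ Emax (Fintype.card F) n := by
  classical
  set Z := {x : Projectivization F (Fin (m + 1) → F) | ∀ i, MvPolynomial.eval x.rep (G i) = 0} with hZ
  have : Finite (Projectivization F (Fin (m + 1) → F)) := inferInstance
  have : Fintype Z := Fintype.ofFinite _
  rw [← Nat.card_coe_set_eq, Nat.card_eq_fintype_card]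
  apply upper_bound hq hm (fun x : Z => x.1.rep) (fun x => x.1.rep_nonzero) ?_ d hd1 hd n
  · have h1 := finrank_C1_pow_add (fun x : Z => x.1.rep) d r G hG hli (fun i j => j.2 i)
    omega
  · intro i j c hc
    apply Subtype.ext
    have hc0 : c ≠ 0 := by
      rintro rfl
      rw [zero_smul] at hc
      exact i.1.rep_nonzero hc
    rw [← Projectivization.mk_rep i.1, ← Projectivization.mk_rep j.1, Projectivization.mk_eq_mk_iff]
    exact ⟨Units.mk0 c hc0, by rw [hc]; rfl⟩

theorem main_aux (hm : 0 < m) (d : ℕ) (hd1 : 1 ≤ d) (hd : d < Fintype.card F) (r : ℕ) (hr1 : 1 ≤ r)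
    (hr : r ≤ (m + d).choose d) :
    ∃ f : Fin r → MvPolynomial (Fin (m + 1)) F,
      (∀ i, (f i).IsHomogeneous d) ∧ LinearIndependent F f ∧
      (∀ G : Fin r → MvPolynomial (Fin (m + 1)) F, (∀ i, (G i).IsHomogeneous d) →
        LinearIndependent F G →
        {x : Projectivization F (Fin (m + 1) → F) | ∀ i, MvPolynomial.eval x.rep (G i) = 0}.ncard ≤
        {x : Projectivization F (Fin (m + 1) → F) | ∀ i, MvPolynomial.eval x.rep (f i) = 0}.ncard) ∧
      (∀ i, ∃ s : Multiset (MvPolynomial (Fin (m + 1)) F), (∀ l ∈ s, l.IsHomogeneous 1) ∧ s.prod = f i) := by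
  classical
  have hq : 1 < Fintype.card F := Fintype.one_lt_card
  have hcp := cost_pow (Fintype.card F) d m hd
  obtain ⟨n, hn1, hn2, hn3, hn4⟩ := exists_n (Fintype.card F) d m ((m + d).choose d - r) (by omega)
  obtain ⟨f, hf1, hf2, hf3, hf4⟩ := example_forms F m d n hd1 hd hn1 hn3
  have hcard := card_index (Fintype.card F) d m n hn1
  rw [hcp, hn2] at hcard
  have hcard' : ((Finset.range (Fintype.card F ^ m)).filter (fun x => n ≤ x ∧ ds (Fintype.card F) x ≤ d)).card = r := by omega
  let e := (Finset.equivFinOfCardEq hcard').symm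
  refine ⟨fun i => f (e i), fun i => hf1 _, hf2.comp _ e.injective, ?_, fun i => hf3 _⟩
  intro G hG hli
  have h1 := zeros_le hq hm d hd1 hd r G hG hli n (by omega)
  refine h1.trans (hf4.trans ?_)
  apply le_of_eq
  congr 1
  ext x
  simp only [Set.mem_ofPred_eq]
  constructor
  · intro h i; exact h _
  · intro h i
    have := h (e.symm i)
    rwa [Equiv.apply_symm_apply] at this

theorem main (p : ℕ) [Fact (Nat.Prime p)] (n : ℕ) (hn : 0 < n)
    (m d r : ℕ) (hm : 1 ≤ m) (hd1 : 1 ≤ d) (hd : d < p ^ n) (hr1 : 1 ≤ r)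
    (hr : r ≤ (m + d).choose d) :
    ∃ F : Fin r → MvPolynomial (Fin (m + 1)) (GaloisField p n),
      (∀ i, (F i).IsHomogeneous d) ∧
      LinearIndependent (GaloisField p n) F ∧
      (∀ G : Fin r → MvPolynomial (Fin (m + 1)) (GaloisField p n),
        (∀ i, (G i).IsHomogeneous d) →
        LinearIndependent (GaloisField p n) G →
        {x : Projectivization (GaloisField p n) (Fin (m + 1) → GaloisField p n) |
            ∀ i, MvPolynomial.eval x.rep (G i) = 0}.ncard ≤
        {x : Projectivization (GaloisField p n) (Fin (m + 1) → GaloisField p n) |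
            ∀ i, MvPolynomial.eval x.rep (F i) = 0}.ncard) ∧
      (∀ x : Projectivization (GaloisField p n) (Fin (m + 1) → GaloisField p n),
        (∀ i, MvPolynomial.eval x.rep (F i) = 0) →
        ∃ P ∈ (Ideal.span (Set.range (fun i =>
              MvPolynomial.map
                (algebraMap (GaloisField p n) (AlgebraicClosure (GaloisField p n))) (F i)))).minimalPrimes,
          (∃ S : Set (MvPolynomial (Fin (m + 1)) (AlgebraicClosure (GaloisField p n))),
            (∀ f ∈ S, f.IsHomogeneous 1) ∧ P = Ideal.span S) ∧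
          ∀ f ∈ P, MvPolynomial.eval
            (fun j => algebraMap (GaloisField p n) (AlgebraicClosure (GaloisField p n)) (x.rep j)) f = 0) := by
  classical
  have : Fintype (GaloisField p n) := Fintype.ofFinite _
  have hcard : Fintype.card (GaloisField p n) = p ^ n := by
    rw [← Nat.card_eq_fintype_card, GaloisField.card p n hn.ne']
  obtain ⟨f, hf1, hf2, hf3, hf4⟩ := main_aux (F := GaloisField p n) (m := m) hm d hd1
    (by rw [hcard]; exact hd) r hr1 hr
  refine ⟨f, hf1, hf2, hf3, ?_⟩
  intro x hx
  apply exists_linear_minimalPrime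
  · intro i
    obtain ⟨s, hs1, hs2⟩ := hf4 i
    refine ⟨s.map (MvPolynomial.map (algebraMap (GaloisField p n) (AlgebraicClosure (GaloisField p n)))), ?_, ?_⟩
    · intro l hl
      rw [Multiset.mem_map] at hl
      obtain ⟨l', hl', rfl⟩ := hl
      exact (hs1 l' hl').map _
    · rw [← hs2, map_multiset_prod]
  · intro i
    have h1 := hx i
    have h2 : MvPolynomial.eval (fun j => algebraMap (GaloisField p n) (AlgebraicClosure (GaloisField p n)) (x.rep j))
        (MvPolynomial.map (algebraMap (GaloisField p n) (AlgebraicClosure (GaloisField p n))) (f i))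
        = algebraMap (GaloisField p n) (AlgebraicClosure (GaloisField p n)) (MvPolynomial.eval x.rep (f i)) := by
      rw [MvPolynomial.eval_map]
      exact (MvPolynomial.eval₂_comp (algebraMap (GaloisField p n) (AlgebraicClosure (GaloisField p n))) x.rep (f i)).symm
    rw [h2, h1, map_zero]

end B04
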