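import Mathlib

/-!
# Standard elements of a family of vectors indexed by a well-ordered set
-/

open Submodule Module

namespace B04

variable {E O : Type*} [LinearOrder O]

/-- the standard indices: `v a` is not in the span of the vectors of smaller index -/
def Std (K : Type*) {V : Type*} [Field K] [AddCommGroup V] [Module K V]
    (key : E → O) (v : E → V) : Set E :=
  {a | v a ∉ span K (v '' {b | key b < key a})}

variable {K V : Type*} [Field K] [AddCommGroup V] [Module K V]

theorem span_std [WellFoundedLT O] (key : E → O) (v : E → V) (S : Set E)
    (hS : ∀ a ∈ S, ∀ b, key b < key a → b ∈ S) :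
    span K (v '' S) = span K (v '' (S ∩ Std K key v)) := by
  apply le_antisymm
  · rw [span_le]
    rintro _ ⟨a, ha, rfl⟩
    -- well-founded induction on key a
    have H : ∀ o : O, ∀ a ∈ S, key a = o → v a ∈ span K (v '' (S ∩ Std K key v)) := by
      intro o
      induction o using WellFoundedLT.induction with
      | ind o ih =>
        intro a ha hao
        by_cases hstd : a ∈ Std K key v
        · exact subset_span ⟨a, ⟨ha, hstd⟩, rfl⟩
        · have h1 : v a ∈ span K (v '' {b | key b < key a}) := by
            by_contra h; exact hstd h
          have h2 : span K (v '' {b | key b < key a}) ≤ span K (v '' (S ∩ Std K key v)) := by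
            rw [span_le]
            rintro _ ⟨b, hb, rfl⟩
            exact ih (key b) (hao ▸ hb) b (hS a ha b hb) rfl
          exact h2 h1
    exact H (key a) a ha rfl
  · exact span_mono (Set.image_mono Set.inter_subset_left)

theorem linearIndependent_std (key : E → O) (hkey : Function.Injective key) (v : E → V) :
    LinearIndependent K (fun a : Std K key v => v a) := by
  classical
  rw [linearIndependent_iff']
  intro s g hg
  by_contra hcon
  push Not at hcon
  obtain ⟨i0, hi0, hgi0⟩ := hcon
  -- the maximal element of the support
  have hne : (s.filter (fun i => g i ≠ 0)).Nonempty := ⟨i0, by simp [hi0, hgi0]⟩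
  obtain ⟨a, ha, hmax⟩ := Finset.exists_max_image _ (fun i : Std K key v => key i) hne
  rw [Finset.mem_filter] at ha
  have hsplit : g a • v a = - ∑ i ∈ s.erase a, g i • v i := by
    rw [← Finset.add_sum_erase s _ ha.1] at hg
    exact eq_neg_of_add_eq_zero_left hg
  apply a.2
  have hmem : g a • v a ∈ span K (v '' {b | key b < key (a : E)}) := by
    rw [hsplit]
    apply neg_mem
    apply sum_mem
    intro i hi
    by_cases h0 : g i = 0
    · simp [h0]
    · apply smul_mem
      apply subset_span
      refine ⟨i, ?_, rfl⟩
      have h1 := hmax i (by simp [Finset.mem_of_mem_erase hi, h0])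
      have h2 : i ≠ a := Finset.ne_of_mem_erase hi
      exact lt_of_le_of_ne h1 (fun h => h2 (Subtype.ext (hkey h)))
  have := smul_mem _ (g a)⁻¹ hmem
  rwa [smul_smul, inv_mul_cancel₀ ha.2, one_smul] at this

/-- For an initial segment `S`, the number of standard elements in it is the dimension of the span. -/
theorem ncard_std [WellFoundedLT O] (key : E → O) (hkey : Function.Injective key) (v : E → V) [FiniteDimensional K V]
    (S : Set E) (hS : ∀ a ∈ S, ∀ b, key b < key a → b ∈ S) :
    (S ∩ Std K key v).Finite ∧ (S ∩ Std K key v).ncard = finrank K (span K (v '' S)) := by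
  have hli : LinearIndependent K (fun a : (S ∩ Std K key v : Set E) => v a) := by
    have := linearIndependent_std (K := K) key hkey v
    exact this.comp (fun a : (S ∩ Std K key v : Set E) => (⟨a.1, a.2.2⟩ : Std K key v))
      (fun a b h => by
        apply Subtype.ext
        have := congrArg Subtype.val h
        exact this)
  have hfin : Finite (S ∩ Std K key v : Set E) := hli.finite
  refine ⟨hfin, ?_⟩
  rw [span_std key v S hS]
  have : Fintype (S ∩ Std K key v : Set E) := Fintype.ofFinite _
  have h := finrank_span_eq_card (R := K) hli
  rw [← Set.image_eq_range] at h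
  rw [h, ← Nat.card_eq_fintype_card, Nat.card_coe_set_eq]

end B04
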