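import Pool.Agent.Lib.MP_0b0414_ag.Std
import Pool.Agent.Lib.MP_0b0414_ag.Key

/-!
# Frobenius-twisted linear forms
-/

set_option linter.unusedSectionVars false

open MvPolynomial

namespace B04

variable {F : Type*} [Field F] [Fintype F] {n : ℕ}

section tw
variable {R : Type*} [CommRing R] [Algebra F R] {R' : Type*} [CommRing R'] [Algebra F R']

/-- the linear form with coefficients `w_s ^ Q`, evaluated at the `F`-rational vector `v` -/
def tw (w : Fin n → R) (Q : ℕ) (v : Fin n → F) : R := ∑ s, w s ^ Q * algebraMap F R (v s)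

theorem map_tw (φ : R →ₐ[F] R') (w : Fin n → R) (Q : ℕ) (v : Fin n → F) :
    φ (tw w Q v) = tw (fun s => φ (w s)) Q v := by
  simp [tw, map_sum]

theorem sum_pow_card_pow [Nontrivial R] {ι : Type*} (s : Finset ι) (f : ι → R) (k : ℕ) :
    (∑ i ∈ s, f i) ^ (Fintype.card F ^ k) = ∑ i ∈ s, f i ^ (Fintype.card F ^ k) := by
  obtain ⟨p, hp⟩ := CharP.exists F
  have := hp
  obtain ⟨e, hpr, he⟩ := FiniteField.card F p
  have : Fact p.Prime := ⟨hpr⟩
  have : CharP R p := (Algebra.charP_iff F R p).mp hp
  have : ExpChar R p := ExpChar.prime hpr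
  rw [he, ← pow_mul, sum_pow_char_pow]

theorem add_pow_card_pow [Nontrivial R] (a b : R) (k : ℕ) :
    (a + b) ^ (Fintype.card F ^ k) = a ^ (Fintype.card F ^ k) + b ^ (Fintype.card F ^ k) := by
  have := sum_pow_card_pow (F := F) (R := R) (Finset.univ : Finset (Fin 2)) ![a, b] k
  simpa [Fin.sum_univ_two] using this

theorem tw_add [Nontrivial R] (w u : Fin n → R) (k : ℕ) (v : Fin n → F) :
    tw (w + u) (Fintype.card F ^ k) v
      = tw w (Fintype.card F ^ k) v + tw u (Fintype.card F ^ k) v := by
  simp only [tw, Pi.add_apply, add_pow_card_pow (F := F), add_mul, Finset.sum_add_distrib]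

theorem tw_pow_card [Nontrivial R] (w : Fin n → R) (Q : ℕ) (v : Fin n → F) :
    tw w Q v ^ Fintype.card F = tw w (Q * Fintype.card F) v := by
  have := sum_pow_card_pow (F := F) (R := R) (Finset.univ : Finset (Fin n))
    (fun s => w s ^ Q * algebraMap F R (v s)) 1
  rw [pow_one] at this
  rw [tw, this, tw]
  refine Finset.sum_congr rfl fun s _ => ?_
  rw [mul_pow, ← pow_mul, ← map_pow, FiniteField.pow_card]

end tw

section generic

theorem tw_X_ne_zero (Q : ℕ) (hQ : Q ≠ 0) (v : Fin n → F) (hv : v ≠ 0) :
    tw (fun s => (X s : MvPolynomial (Fin n) F)) Q v ≠ 0 := by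
  classical
  obtain ⟨s, hs⟩ : ∃ s, v s ≠ 0 := by
    by_contra h
    push Not at h
    exact hv (funext h)
  intro h0
  apply hs
  have h1 := congrArg (coeff (Finsupp.single s Q)) h0
  rw [tw, coeff_sum, coeff_zero, Finset.sum_eq_single s] at h1
  · rw [algebraMap_eq, mul_comm, coeff_C_mul] at h1
    rw [X_pow_eq_monomial] at h1
    simpa using h1
  · intro b _ hb
    rw [algebraMap_eq, mul_comm, coeff_C_mul, X_pow_eq_monomial, coeff_monomial, if_neg, mul_zero]
    intro h
    have := DFunLike.congr_fun h s
    rw [Finsupp.single_eq_same, Finsupp.single_eq_of_ne (Ne.symm hb)] at this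
    exact hQ this.symm
  · intro h; exact absurd (Finset.mem_univ s) h

/-- the Moore matrix of the indeterminates is invertible -/
theorem det_moore_ne_zero (Q : Fin n → ℕ) (hQ : Function.Injective Q) :
    (Matrix.of (fun k s => (X s : MvPolynomial (Fin n) F) ^ Q k)).det ≠ 0 := by
  intro h
  -- specialise `X s ↦ T ^ s`
  let φ : MvPolynomial (Fin n) F →ₐ[F] Polynomial F :=
    aeval (fun s : Fin n => (Polynomial.X : Polynomial F) ^ (s : ℕ))
  have h1 : φ ((Matrix.of (fun k s => (X s : MvPolynomial (Fin n) F) ^ Q k)).det) = 0 := by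
    rw [h, map_zero]
  rw [AlgHom.map_det] at h1
  have h2 : φ.mapMatrix (Matrix.of (fun k s => (X s : MvPolynomial (Fin n) F) ^ Q k))
      = Matrix.vandermonde (fun k => (Polynomial.X : Polynomial F) ^ Q k) := by
    ext1 k s
    simp only [AlgHom.mapMatrix_apply, Matrix.map_apply, Matrix.of_apply, map_pow,
      Matrix.vandermonde_apply, φ, aeval_X]
    rw [← pow_mul, ← pow_mul, mul_comm]
  rw [h2] at h1
  refine Matrix.det_vandermonde_ne_zero_iff.mpr ?_ h1
  intro a b hab
  apply hQ
  have := congrArg Polynomial.natDegree hab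
  simpa using this

/-- cross products of twisted forms determine the vector up to proportionality -/
theorem cross_eq (Q1 Q0 : ℕ) (hne : Q1 ≠ Q0) (h1 : Q1 ≠ 0) (h0 : Q0 ≠ 0) (v v' : Fin n → F)
    (h : tw (fun s => (X s : MvPolynomial (Fin n) F)) Q1 v * tw (fun s => X s) Q0 v'
      = tw (fun s => (X s : MvPolynomial (Fin n) F)) Q1 v' * tw (fun s => X s) Q0 v)
    (s t : Fin n) : v s * v' t = v' s * v t := by
  classical
  rcases eq_or_ne s t with rfl | hst
  · exact mul_comm _ _
  have key : ∀ a b : Fin n → F,
      coeff (Finsupp.single s Q1 + Finsupp.single t Q0)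
        (tw (fun s => (X s : MvPolynomial (Fin n) F)) Q1 a * tw (fun s => X s) Q0 b)
        = a s * b t := by
    intro a b
    have e : tw (fun s => (X s : MvPolynomial (Fin n) F)) Q1 a * tw (fun s => X s) Q0 b
        = ∑ i, ∑ j, monomial (Finsupp.single i Q1 + Finsupp.single j Q0) (a i * b j) := by
      rw [tw, tw, Finset.sum_mul_sum]
      refine Finset.sum_congr rfl fun i _ => Finset.sum_congr rfl fun j _ => ?_
      rw [X_pow_eq_monomial, X_pow_eq_monomial, algebraMap_eq, mul_comm (monomial _ _) (C (a i)),
        mul_comm (monomial _ _) (C (b j)), C_mul_monomial, C_mul_monomial, monomial_mul]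
      simp
    rw [e, coeff_sum, Finset.sum_eq_single s]
    · rw [coeff_sum, Finset.sum_eq_single t]
      · simp
      · intro j _ hj
        rw [coeff_monomial, if_neg]
        intro hh
        have := add_left_cancel hh
        have h3 := DFunLike.congr_fun this j
        rw [Finsupp.single_eq_same, Finsupp.single_eq_of_ne hj] at h3
        exact h0 h3
      · intro hh; exact absurd (Finset.mem_univ t) hh
    · intro i _ hi
      rw [coeff_sum]
      apply Finset.sum_eq_zero
      intro j _
      rw [coeff_monomial, if_neg]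
      intro hh
      -- compare at s
      have hs := DFunLike.congr_fun hh s
      rw [Finsupp.add_apply, Finsupp.add_apply, Finsupp.single_eq_same,
        Finsupp.single_eq_of_ne (Ne.symm hi), Finsupp.single_eq_of_ne hst] at hs
      by_cases hjs : j = s
      · subst hjs
        rw [Finsupp.single_eq_same] at hs
        omega
      · rw [Finsupp.single_eq_of_ne (Ne.symm hjs)] at hs
        omega
    · intro hh; exact absurd (Finset.mem_univ s) hh
  have := congrArg (coeff (Finsupp.single s Q1 + Finsupp.single t Q0)) h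
  rw [key, key] at this
  exact this

end generic

end B04
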