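import Pool.Agent.Lib.MP_0b0414_ag.Alg4
import Pool.Agent.Lib.MP_0b0414_ag.Comb

/-!
# The upper bound
-/

set_option linter.unusedSectionVars false

open MvPolynomial Submodule Module

namespace B04

theorem cost_mono (q d : ℕ) {a b : ℕ} (h : a ≤ b) : cost q d a ≤ cost q d b := by
  unfold cost
  apply Finset.card_le_card
  apply Finset.filter_subset_filter
  exact Finset.range_subset_range.mpr h

theorem lt_of_cost_lt {q d a b : ℕ} (h : cost q d a < cost q d b) : a < b := by
  by_contra hab
  push Not at hab
  exact absurd (cost_mono q d hab) (not_le.mpr h)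

variable {F : Type*} [Field F] [Fintype F] {m : ℕ} {ι : Type*} [Fintype ι]

theorem upper_bound (hq : 1 < Fintype.card F) (hm : 0 < m) (v : ι → Fin (m + 1) → F)
    (hv : ∀ i, v i ≠ 0) (hvp : ∀ i j, ∀ c : F, v i = c • v j → i = j)
    (d : ℕ) (hd1 : 1 ≤ d) (hd : d < Fintype.card F) (n : ℕ)
    (hn : finrank (KK F m) (C1 v ^ d : Submodule (KK F m) (ι → KK F m)) < cost (Fintype.card F) d (n + 1)) :
    Fintype.card ι ≤ Emax (Fintype.card F) n := by
  classical
  set q := Fintype.card F with hqdef
  obtain ⟨hfin, hcard⟩ := DD_finite_card hq hm v hv hvp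
  set D := hfin.toFinset with hD
  have hDmem : ∀ a, a ∈ D ↔ a ∈ DD v := fun a => by rw [hD, Set.Finite.mem_toFinset]
  have hDcard : D.card = Fintype.card ι := by
    rw [← hcard, Set.ncard_eq_toFinset_card _ hfin]
  -- the box part
  set G := D.filter (fun a => ∀ i, a i < q) with hG
  have hGmem : ∀ a, a ∈ G ↔ a ∈ DD v ∧ ∀ i, a i < q := fun a => by
    rw [hG, Finset.mem_filter, hDmem]
  have hGn : G.card ≤ n := by
    have h1 := downset_cost q d hd m G
      (by
        intro a ha b hb
        rw [hGmem] at ha ⊢
        exact ⟨DD_down ha.1 hb, fun i => (hb i).trans_lt (ha.2 i)⟩)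
      (fun a ha => ((hGmem a).mp ha).2)
    have h2 : (G.filter (fun a => ∑ i, a i ≤ d)).card
        ≤ ({a | ∑ l, a l ≤ d} ∩ DD v).ncard := by
      rw [← Set.ncard_coe_finset]
      apply Set.ncard_le_ncard
      · intro a ha
        rw [Finset.mem_coe, Finset.mem_filter, hGmem] at ha
        exact ⟨ha.2, ha.1.1⟩
      · exact hfin.subset Set.inter_subset_right
    have h3 := DD_le_card v hv d
    have h4 : cost q d G.card < cost q d (n + 1) := by omega
    have := lt_of_cost_lt h4
    omega
  -- the extras
  have hext : (D.filter (fun a => ¬ ∀ i, a i < q)).card ≤ ∑ j ∈ Finset.range (Nat.log q n), q ^ j := by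
    set P : ℕ → Finset (Fin m → ℕ) := fun i =>
      if h : i < m then Fintype.piFinset (fun k : Fin m => if (k : ℕ) < i then Finset.range q
        else if (k : ℕ) = i then {q} else {0}) else ∅ with hP
    have hsub : D.filter (fun a => ¬ ∀ i, a i < q) ⊆ (Finset.range (Nat.log q n)).biUnion P := by
      intro a ha
      rw [Finset.mem_filter, hDmem] at ha
      obtain ⟨haD, hai⟩ := ha
      push Not at hai
      obtain ⟨i, hi⟩ := hai
      have hA := DD_box hq v hv haD hi
      rw [Finset.mem_biUnion]
      refine ⟨i, ?_, ?_⟩
      · rw [Finset.mem_range]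
        have hsingle : (Pi.single i d : Fin m → ℕ) ∈ DD v := by
          apply DD_down haD
          intro k
          rcases eq_or_ne k i with rfl | hk
          · rw [Pi.single_eq_same]
            show d ≤ a k
            exact hd.le.trans hi
          · rw [Pi.single_eq_of_ne hk]; exact Nat.zero_le _
        have hB := DD_B hq v hv i d hd1 hd hsingle
        rw [← cost_pow q d _ hd] at hB
        have h5 := lt_of_cost_lt (hB.trans_lt hn)
        have h6 : q ^ ((i : ℕ) + 1) ≤ n := by omega
        have h7 : (i : ℕ) + 1 ≤ Nat.log q n := Nat.le_log_of_pow_le hq h6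
        omega
      · simp only [hP]
        rw [dif_pos i.2, Fintype.mem_piFinset]
        intro k
        split_ifs with h1 h2
        · rw [Finset.mem_range]
          by_contra hcon
          push Not at hcon
          have := (DD_box hq v hv haD hcon).2 i (Fin.lt_def.mpr h1)
          omega
        · have : k = i := Fin.ext h2
          subst this
          rw [Finset.mem_singleton]; exact hA.1
        · rw [Finset.mem_singleton]
          apply hA.2
          rw [Fin.lt_def]; omega
    refine (Finset.card_le_card hsub).trans ?_
    refine Finset.card_biUnion_le.trans ?_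
    apply Finset.sum_le_sum
    intro i _
    simp only [hP]
    split_ifs with h
    · rw [Fintype.card_piFinset]
      have e : ∀ k : Fin m, (if (k : ℕ) < i then Finset.range q
        else if (k : ℕ) = i then {q} else {0} : Finset ℕ).card = if (k : ℕ) < i then q else 1 := by
        intro k
        split_ifs <;> simp
      simp_rw [e]
      rw [Finset.prod_ite, Finset.prod_const, Finset.prod_const_one, mul_one]
      apply le_of_eq
      congr 1
      have : (Finset.univ.filter (fun k : Fin m => (k : ℕ) < i)) = Finset.Iio (⟨i, h⟩ : Fin m) := by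
        ext k
        simp [Fin.lt_def]
      rw [this, Fin.card_Iio]
    · simp
  have htot : D.card = G.card + (D.filter (fun a => ¬ ∀ i, a i < q)).card := by
    rw [hG]
    exact (Finset.card_filter_add_card_filter_not _).symm
  rw [← hDcard, htot]
  unfold Emax
  exact Nat.add_le_add hGn hext

end B04
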